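import Pool.Agent.W221.NS.Stm

/-!
Basic facts for the parts of the partial regularity project (helper12).
-/

open MeasureTheory Set Metric
open scoped ContDiff ENNReal

namespace Pool.Agent.W12.MD

open H459R3.NS W221.NS

theorem intB {f : V → ℝ} (hf : Continuous f) (a : V) (ρ : ℝ) : IntegrableOn f (ball a ρ) :=
  (hf.continuousOn.integrableOn_compact (isCompact_closedBall a ρ)).mono_set ball_subset_closedBall

theorem fderiv_sum (f : V → ℝ) (x v : V) : fderiv ℝ f x v = ∑ j, v j * pd j f x := by
  conv_lhs => rw [← Finset.univ_sum_single v]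
  rw [map_sum]
  refine Finset.sum_congr rfl fun j _ => ?_
  have : (Pi.single j (v j) : V) = v j • Pi.single j 1 := by
    rw [← Pi.single_smul]; simp
  rw [this, map_smul]
  rfl

theorem smooth_pd {f : V → ℝ} (hf : ContDiff ℝ ∞ f) (j : Fin 3) : ContDiff ℝ ∞ (pd j f) :=
  (hf.fderiv_right (m := ∞) (by norm_cast)).clm_apply contDiff_const

theorem smooth_comp {v : V → V} (hv : ContDiff ℝ ∞ v) (i : Fin 3) :
    ContDiff ℝ ∞ (fun y => v y i) := by
  have := contDiff_pi.1 hv i
  exact this

theorem th_cont : Continuous th := bmp.continuous_normed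

theorem th_smooth : ContDiff ℝ ∞ th := bmp.contDiff_normed

theorem th_nonneg (z : V) : 0 ≤ th z := bmp.nonneg_normed z

theorem th_int : ∫ z, th z = 1 := bmp.integral_normed

theorem th_zero {z : V} (hz : z ∉ ball (0 : V) 1) : th z = 0 := by
  have h : Function.support (bmp.normed volume) = ball (0 : V) 1 := bmp.support_normed_eq
  by_contra hne
  exact hz (h ▸ (Function.mem_support.2 hne))

theorem th_bdd : ∃ C : ℝ, 0 < C ∧ ∀ z, th z ≤ C := by
  obtain ⟨C, hC⟩ := (isCompact_closedBall (0 : V) 1).exists_bound_of_continuousOn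
    th_cont.continuousOn
  refine ⟨max C 1, by positivity, fun z => ?_⟩
  by_cases hz : z ∈ closedBall (0 : V) 1
  · exact (le_abs_self _).trans ((hC z hz).trans (le_max_left _ _))
  · rw [th_zero (fun h => hz (ball_subset_closedBall h))]
    exact (by norm_num : (0 : ℝ) ≤ 1).trans (le_max_right _ _)

/-- integrals against th are integrals over the unit ball -/
theorem th_mul_int {f : V → ℝ} (hf : Continuous f) : Integrable (fun z => th z * f z) := by
  refine (th_cont.mul hf).integrable_of_hasCompactSupport ?_
  refine HasCompactSupport.intro (isCompact_closedBall (0 : V) 1) fun x hx => ?_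
  rw [Pi.mul_apply, th_zero (fun h => hx (ball_subset_closedBall h)), zero_mul]

/-- the weight `th` is dominated by a constant on a ball. -/
theorem th_int_le {C : ℝ} (hC : ∀ z, th z ≤ C) {f : V → ℝ} (hf : Continuous f)
    (h0 : ∀ z, 0 ≤ f z) {ρ : ℝ} (hρ : 1 ≤ ρ) :
    ∫ z, th z * f z ≤ C * ∫ z in ball (0 : V) ρ, f z := by
  have e : ∫ z, th z * f z = ∫ z in ball (0 : V) ρ, th z * f z := by
    rw [← integral_indicator measurableSet_ball]
    congr 1
    funext z
    by_cases hz : z ∈ ball (0 : V) ρ
    · rw [indicator_of_mem hz]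
    · rw [indicator_of_notMem hz, th_zero (fun h => hz (ball_subset_ball hρ h)), zero_mul]
  rw [e, ← integral_const_mul]
  refine setIntegral_mono (th_mul_int hf).integrableOn ((intB hf _ _).const_mul C) fun z => ?_
  exact mul_le_mul_of_nonneg_right (hC z) (h0 z)

end Pool.Agent.W12.MD
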