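import Pool.Agent.W12.MD.Base

/-!
MD-GROW: growth of the L4 norm on large balls (helper12).
-/

open MeasureTheory Set Metric
open scoped ContDiff ENNReal Pointwise

namespace Pool.Agent.W12.MD

open H459R3.NS W221.NS

theorem scal (F : V → ℝ) {r : ℝ} (hr : 0 < r) (ρ : ℝ) :
    ∫ z in ball (0 : V) ρ, F (r • z) = (r ^ 3)⁻¹ * ∫ z in ball (0 : V) (r * ρ), F z := by
  rw [Measure.setIntegral_comp_smul_of_pos _ _ _ hr, _root_.smul_ball hr.ne', smul_zero,
    Real.norm_of_nonneg hr.le]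
  simp

theorem pd_scal {f : V → ℝ} (hf : ContDiff ℝ ∞ f) (r c : ℝ) (j : Fin 3) (z : V) :
    pd j (fun y => f (r • y) - c) z = r * pd j f (r • z) := by
  have hd : Differentiable ℝ f := hf.differentiable (by simp)
  have h1 : HasFDerivAt (fun y : V => r • y) (r • ContinuousLinearMap.id ℝ V) z :=
    (hasFDerivAt_id z).const_smul r
  have h2 := ((hd (r • z)).hasFDerivAt.comp z h1).sub_const c
  unfold pd
  rw [show fderiv ℝ (fun y => f (r • y) - c) z = _ from h2.fderiv]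
  simp

theorem jensen {f : V → ℝ} (hf : Continuous f) : (∫ z, th z * f z) ^ 2 ≤ ∫ z, th z * f z ^ 2 := by
  set m := ∫ z, th z * f z with hm
  have h0 : 0 ≤ ∫ z, th z * (f z - m) ^ 2 :=
    integral_nonneg fun z => mul_nonneg (th_nonneg z) (sq_nonneg _)
  have e : ∀ y, th y * (f y - m) ^ 2
      = th y * f y ^ 2 - 2 * m * (th y * f y) + m ^ 2 * th y := fun y => by ring
  have i1 : Integrable (fun y => m ^ 2 * th y) := by
    have := th_mul_int (f := fun _ => m ^ 2) continuous_const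
    simpa [mul_comm] using this
  have i2 : Integrable (fun y => 2 * m * (th y * f y)) := (th_mul_int hf).const_mul _
  have i3 : Integrable (fun y => th y * f y ^ 2) := th_mul_int (hf.pow 2)
  have i4 : Integrable (fun y => th y * f y ^ 2 - 2 * m * (th y * f y)) := i3.sub i2
  simp_rw [e] at h0
  rw [integral_add i4 i1, integral_sub i3 i2, integral_const_mul, integral_const_mul,
    ← hm, th_int] at h0
  linarith

/-- the weighted mean at scale `r` -/
noncomputable def MM (v : V → V) (r : ℝ) (i : Fin 3) : ℝ := ∫ z, th z * v (r • z) i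

/-- the deviation from a constant -/
noncomputable def DD (v : V → V) (r : ℝ) (M : V) : ℝ :=
  ∫ x in ball (0 : V) (2 * r), ∑ i, (v x i - M i) ^ 2

theorem dev (C : ℝ) (hP : ∀ v : V → V, ContDiff ℝ ∞ v →
    (∀ i, ∫ z, th z * v z i = 0) → A2 0 2 v ≤ C * B2 0 2 v)
    {v : V → V} (hv : ContDiff ℝ ∞ v) {r : ℝ} (hr : 0 < r) :
    DD v r (MM v r) ≤ C * r ^ 2 * B2 0 (2 * r) v := by
  have hvi := smooth_comp hv
  set w : V → V := fun z i => v (r • z) i - MM v r i with hw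
  have hws : ContDiff ℝ ∞ w := by
    rw [contDiff_pi]
    intro i
    exact ((hvi i).comp (contDiff_const_smul r)).sub contDiff_const
  have hwm : ∀ i, ∫ z, th z * w z i = 0 := by
    intro i
    have e : ∀ z, th z * w z i = th z * v (r • z) i - MM v r i * th z := by
      intro z; rw [hw]; ring
    simp_rw [e]
    have hc : Continuous (fun z => v (r • z) i) := (hvi i).continuous.comp (continuous_const_smul r)
    have i1 : Integrable (fun z => MM v r i * th z) := by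
      have := th_mul_int (f := fun _ => MM v r i) continuous_const
      simpa [mul_comm] using this
    rw [integral_sub (th_mul_int hc) i1, integral_const_mul, th_int, mul_one]
    exact sub_self _
  have h := hP w hws hwm
  have hA : A2 0 2 w = (r ^ 3)⁻¹ * DD v r (MM v r) := by
    unfold A2 nsq DD
    have := scal (fun x => ∑ i, (v x i - MM v r i) ^ 2) hr 2
    rw [mul_comm r 2] at this
    exact this
  have hB : B2 0 2 w = r ^ 2 * ((r ^ 3)⁻¹ * B2 0 (2 * r) v) := by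
    unfold B2
    have e : ∀ z, gsq w z = r ^ 2 * gsq v (r • z) := by
      intro z
      unfold gsq
      rw [Finset.mul_sum]
      refine Finset.sum_congr rfl fun i _ => ?_
      rw [Finset.mul_sum]
      refine Finset.sum_congr rfl fun j _ => ?_
      have := pd_scal (hvi i) r (MM v r i) j z
      rw [hw, show pd j (fun y => v (r • y) i - MM v r i) z = _ from this]
      ring
    simp_rw [e]
    rw [integral_const_mul, scal _ hr, mul_comm r 2]
  rw [hA, hB] at h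
  have h2 : (r ^ 3)⁻¹ * DD v r (MM v r) ≤ (r ^ 3)⁻¹ * (C * r ^ 2 * B2 0 (2 * r) v) := by
    refine h.trans (le_of_eq ?_)
    ring
  exact le_of_mul_le_mul_left h2 (by positivity)

theorem DD_comp_le {v : V → V} (hv : ContDiff ℝ ∞ v) (r : ℝ) (M : V) (i : Fin 3) :
    ∫ x in ball (0 : V) (2 * r), (v x i - M i) ^ 2 ≤ DD v r M := by
  have hvi := smooth_comp hv
  have hc : ∀ i, Continuous (fun x => (v x i - M i) ^ 2) := fun i =>
    ((hvi i).continuous.sub continuous_const).pow 2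
  refine setIntegral_mono (intB (hc i) _ _) (intB (continuous_finsetSum _ fun i _ => hc i) _ _)
    fun x => ?_
  exact Finset.single_le_sum (f := fun i => (v x i - M i) ^ 2) (fun i _ => sq_nonneg _)
    (Finset.mem_univ i)

theorem mean_step (C : ℝ) (hP : ∀ v : V → V, ContDiff ℝ ∞ v →
    (∀ i, ∫ z, th z * v z i = 0) → A2 0 2 v ≤ C * B2 0 2 v) {Ct : ℝ} (hCt0 : 0 < Ct)
    (hCt : ∀ z, th z ≤ Ct)
    {v : V → V} (hv : ContDiff ℝ ∞ v) {r : ℝ} (hr : 0 < r) (i : Fin 3) :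
    (MM v (2 * r) i - MM v r i) ^ 2 ≤ Ct * C * (8 * r)⁻¹ * B2 0 (2 * r) v := by
  have hvi := smooth_comp hv
  have hc : Continuous (fun z => v ((2 * r) • z) i) :=
    (hvi i).continuous.comp (continuous_const_smul _)
  have hc2 : Continuous (fun z => v ((2 * r) • z) i - MM v r i) := hc.sub continuous_const
  have e1 : MM v (2 * r) i - MM v r i = ∫ z, th z * (v ((2 * r) • z) i - MM v r i) := by
    have e : ∀ z, th z * (v ((2 * r) • z) i - MM v r i)
        = th z * v ((2 * r) • z) i - MM v r i * th z := fun z => by ring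
    simp_rw [e]
    have i1 : Integrable (fun z => MM v r i * th z) := by
      have := th_mul_int (f := fun _ => MM v r i) continuous_const
      simpa [mul_comm] using this
    rw [integral_sub (th_mul_int hc) i1, integral_const_mul, th_int, mul_one]
    rfl
  rw [e1]
  refine (jensen hc2).trans ?_
  refine (th_int_le hCt (hc2.pow 2) (fun z => sq_nonneg _) le_rfl).trans ?_
  have e2 := scal (fun x => (v x i - MM v r i) ^ 2) (r := 2 * r) (by positivity) 1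
  simp only [Pi.pow_apply]
  rw [e2, mul_one]
  calc Ct * (((2 * r) ^ 3)⁻¹ * ∫ z in ball (0 : V) (2 * r), (v z i - MM v r i) ^ 2)
      ≤ Ct * (((2 * r) ^ 3)⁻¹ * (C * r ^ 2 * B2 0 (2 * r) v)) := by
        gcongr
        exact (DD_comp_le hv r (MM v r) i).trans (dev C hP hv hr)
    _ = Ct * C * (8 * r)⁻¹ * B2 0 (2 * r) v := by
        field_simp
        ring

theorem B2_nonneg (ρ : ℝ) (v : V → V) : 0 ≤ B2 0 ρ v :=
  setIntegral_nonneg measurableSet_ball fun _ _ =>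
    Finset.sum_nonneg fun _ _ => Finset.sum_nonneg fun _ _ => sq_nonneg _

/-- the weighted averages -/
noncomputable def tt (v : V → V) (j : ℕ) : ℝ := 2 ^ j * √(B2 0 (2 ^ j) v / 8 ^ j)

theorem tt_nonneg (v : V → V) (j : ℕ) : 0 ≤ tt v j := by unfold tt; positivity

theorem tt_sq (v : V → V) (j : ℕ) : B2 0 (2 ^ j) v = 2 ^ j * tt v j ^ 2 := by
  unfold tt
  rw [mul_pow, Real.sq_sqrt (div_nonneg (B2_nonneg _ _) (by positivity))]
  have h : (8 : ℝ) ^ j = 2 ^ j * 2 ^ j * 2 ^ j := by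
    rw [← mul_pow, ← mul_pow]; norm_num
  rw [h]
  field_simp

/-- bound of the means -/
theorem mean_bd (C : ℝ) (hC : 0 < C) (hP : ∀ v : V → V, ContDiff ℝ ∞ v →
    (∀ i, ∫ z, th z * v z i = 0) → A2 0 2 v ≤ C * B2 0 2 v) {Ct : ℝ} (hCt0 : 0 < Ct)
    (hCt : ∀ z, th z ≤ Ct)
    {v : V → V} (hv : ContDiff ℝ ∞ v) (h0 : ∀ i, ∫ z, th z * v z i = 0) (k : ℕ) (i : Fin 3) :
    |MM v (2 ^ k) i| ≤ √(Ct * C) * ∑ j ∈ Finset.range (k + 1), tt v j := by
  induction k with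
  | zero =>
    have e : MM v (2 ^ 0) i = 0 := by
      unfold MM
      simpa using h0 i
    rw [e, abs_zero]
    exact mul_nonneg (Real.sqrt_nonneg _) (Finset.sum_nonneg fun _ _ => tt_nonneg _ _)
  | succ k ih =>
    have h1 := mean_step C hP hCt0 hCt hv (r := 2 ^ k) (by positivity) i
    rw [show (2 : ℝ) * 2 ^ k = 2 ^ (k + 1) by ring] at h1
    have h2 : |MM v (2 ^ (k + 1)) i - MM v (2 ^ k) i| ≤ √(Ct * C) * tt v (k + 1) := by
      refine abs_le_of_sq_le_sq ?_ (mul_nonneg (Real.sqrt_nonneg _) (tt_nonneg _ _))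
      refine h1.trans ?_
      rw [tt_sq, mul_pow, Real.sq_sqrt (by positivity)]
      have h3 : (8 * (2 : ℝ) ^ k)⁻¹ * (2 ^ (k + 1) * tt v (k + 1) ^ 2)
          ≤ tt v (k + 1) ^ 2 := by
        have : (8 * (2 : ℝ) ^ k)⁻¹ * (2 ^ (k + 1) * tt v (k + 1) ^ 2)
            = tt v (k + 1) ^ 2 / 4 := by
          field_simp
          ring
        rw [this]
        linarith [sq_nonneg (tt v (k + 1))]
      calc Ct * C * (8 * (2 : ℝ) ^ k)⁻¹ * (2 ^ (k + 1) * tt v (k + 1) ^ 2)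
          = Ct * C * ((8 * (2 : ℝ) ^ k)⁻¹ * (2 ^ (k + 1) * tt v (k + 1) ^ 2)) := by ring
        _ ≤ Ct * C * tt v (k + 1) ^ 2 := mul_le_mul_of_nonneg_left h3 (by positivity)
    rw [Finset.sum_range_succ, mul_add]
    have h4 : |MM v (2 ^ (k + 1)) i| ≤ |MM v (2 ^ k) i|
        + |MM v (2 ^ (k + 1)) i - MM v (2 ^ k) i| := by
      have := abs_add_le (MM v (2 ^ k) i) (MM v (2 ^ (k + 1)) i - MM v (2 ^ k) i)
      rwa [add_sub_cancel] at this
    linarith

theorem nsq_nonneg (v : V → V) (x : V) : 0 ≤ nsq v x := Finset.sum_nonneg fun _ _ => sq_nonneg _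

theorem nsq_cont {v : V → V} (hv : ContDiff ℝ ∞ v) : Continuous (nsq v) :=
  continuous_finsetSum _ fun i _ => (smooth_comp hv i).continuous.pow 2

theorem vol_ball {ρ : ℝ} (hρ : 0 < ρ) : (volume : Measure V).real (ball 0 ρ) = (2 * ρ) ^ 3 := by
  unfold Measure.real
  rw [Real.volume_pi_ball _ hρ]
  rw [Fintype.card_fin, ENNReal.toReal_ofReal (by positivity)]

/-- bound of the energy on the large ball -/
theorem A2_bd {C : ℝ} (hC : 0 < C) (hP : ∀ v : V → V, ContDiff ℝ ∞ v →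
    (∀ i, ∫ z, th z * v z i = 0) → A2 0 2 v ≤ C * B2 0 2 v) {Ct : ℝ} (hCt0 : 0 < Ct)
    (hCt : ∀ z, th z ≤ Ct)
    {v : V → V} (hv : ContDiff ℝ ∞ v) (h0 : ∀ i, ∫ z, th z * v z i = 0) (k : ℕ) :
    A2 0 (2 * 2 ^ k) v ≤ (4 * C + 384 * (Ct * C)) * 8 ^ k
      * (∑ j ∈ Finset.range (k + 2), tt v j) ^ 2 := by
  set S := ∑ j ∈ Finset.range (k + 2), tt v j with hS
  have hS0 : 0 ≤ S := Finset.sum_nonneg fun _ _ => tt_nonneg _ _
  have hS1 : S = (∑ j ∈ Finset.range (k + 1), tt v j) + tt v (k + 1) := Finset.sum_range_succ _ _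
  have hS2 : 0 ≤ ∑ j ∈ Finset.range (k + 1), tt v j := Finset.sum_nonneg fun _ _ => tt_nonneg _ _
  have ht : tt v (k + 1) ≤ S := by rw [hS1]; linarith
  have ht2 : tt v (k + 1) ^ 2 ≤ S ^ 2 := pow_le_pow_left₀ (tt_nonneg _ _) ht 2
  have hvi := smooth_comp hv
  set M := MM v (2 ^ k) with hM
  have hMi : ∀ i, M i ^ 2 ≤ Ct * C * S ^ 2 := by
    intro i
    have h1 := mean_bd C hC hP hCt0 hCt hv h0 k i
    have h2 : |M i| ≤ √(Ct * C) * S := by
      refine h1.trans (mul_le_mul_of_nonneg_left ?_ (Real.sqrt_nonneg _))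
      rw [hS1]; linarith [tt_nonneg v (k + 1)]
    rw [← sq_abs]
    refine (pow_le_pow_left₀ (abs_nonneg _) h2 2).trans ?_
    rw [mul_pow, Real.sq_sqrt (by positivity)]
  have hD := dev C hP hv (r := 2 ^ k) (by positivity)
  have hDc : ∀ i, Continuous (fun x => (v x i - M i) ^ 2) := fun i =>
    ((hvi i).continuous.sub continuous_const).pow 2
  have hDi : IntegrableOn (fun x => ∑ i, (v x i - M i) ^ 2) (ball (0 : V) (2 * 2 ^ k)) :=
    intB (continuous_finsetSum _ fun i _ => hDc i) _ _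
  have hci : IntegrableOn (fun _ : V => ∑ i, 2 * M i ^ 2) (ball (0 : V) (2 * 2 ^ k)) :=
    intB continuous_const _ _
  have h3 : A2 0 (2 * 2 ^ k) v ≤ 2 * DD v (2 ^ k) M
      + (∑ i, 2 * M i ^ 2) * (2 * (2 * 2 ^ k)) ^ 3 := by
    have e1 : (∑ i, 2 * M i ^ 2) * (2 * (2 * (2 : ℝ) ^ k)) ^ 3
        = ∫ _ in ball (0 : V) (2 * 2 ^ k), ∑ i, 2 * M i ^ 2 := by
      rw [setIntegral_const, vol_ball (by positivity), smul_eq_mul, mul_comm]
    rw [e1]
    unfold DD A2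
    rw [← integral_const_mul, ← integral_add (hDi.const_mul 2) hci]
    refine setIntegral_mono (intB (nsq_cont hv) _ _) ((hDi.const_mul 2).add hci) fun x => ?_
    unfold nsq
    rw [Finset.mul_sum, ← Finset.sum_add_distrib]
    refine Finset.sum_le_sum fun i _ => ?_
    nlinarith [sq_nonneg (v x i - M i - M i)]
  have h4 : ∑ i, 2 * M i ^ 2 ≤ 6 * (Ct * C * S ^ 2) := by
    calc ∑ i, 2 * M i ^ 2 ≤ ∑ _i : Fin 3, 2 * (Ct * C * S ^ 2) :=
          Finset.sum_le_sum fun i _ => by linarith [hMi i]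
      _ = 6 * (Ct * C * S ^ 2) := by
        rw [Finset.sum_const, Finset.card_univ, Fintype.card_fin, nsmul_eq_mul]; push_cast; ring
  rw [show (2 : ℝ) * 2 ^ k = 2 ^ (k + 1) by ring, tt_sq] at hD
  have h8 : (8 : ℝ) ^ k = 2 ^ k * 2 ^ k * 2 ^ k := by
    rw [← mul_pow, ← mul_pow]; norm_num
  have h5 : DD v (2 ^ k) M ≤ 2 * C * 8 ^ k * S ^ 2 := by
    refine hD.trans ?_
    have : C * ((2 : ℝ) ^ k) ^ 2 * (2 ^ (k + 1) * tt v (k + 1) ^ 2)
        = 2 * C * 8 ^ k * tt v (k + 1) ^ 2 := by rw [h8]; ring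
    rw [this]
    exact mul_le_mul_of_nonneg_left ht2 (by positivity)
  have h6 : (∑ i, 2 * M i ^ 2) * (2 * (2 * (2 : ℝ) ^ k)) ^ 3
      ≤ 384 * (Ct * C) * 8 ^ k * S ^ 2 := by
    have : (2 * (2 * (2 : ℝ) ^ k)) ^ 3 = 64 * 8 ^ k := by rw [h8]; ring
    rw [this]
    calc (∑ i, 2 * M i ^ 2) * (64 * (8 : ℝ) ^ k) ≤ 6 * (Ct * C * S ^ 2) * (64 * 8 ^ k) :=
          mul_le_mul_of_nonneg_right h4 (by positivity)
      _ = 384 * (Ct * C) * 8 ^ k * S ^ 2 := by ring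
  calc A2 0 (2 * 2 ^ k) v ≤ 2 * DD v (2 ^ k) M
      + (∑ i, 2 * M i ^ 2) * (2 * (2 * 2 ^ k)) ^ 3 := h3
    _ ≤ 2 * (2 * C * 8 ^ k * S ^ 2) + 384 * (Ct * C) * 8 ^ k * S ^ 2 := by linarith
    _ = (4 * C + 384 * (Ct * C)) * 8 ^ k * S ^ 2 := by ring

/-- interpolation between L2 (trivial) and L6 -/
theorem L4_interp {v : V → V} (hv : ContDiff ℝ ∞ v) {ρ l : ℝ} (hρ : 0 < ρ) (hl : 0 < l) :
    L4 0 ρ v ≤ (2 * ρ) ^ 3 * l ^ 2 + L6 0 ρ v / l := by
  have e1 : (2 * ρ) ^ 3 * l ^ 2 = ∫ _ in ball (0 : V) ρ, l ^ 2 := by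
    rw [setIntegral_const, vol_ball hρ, smul_eq_mul]
  have i1 : IntegrableOn (fun _ : V => l ^ 2) (ball (0 : V) ρ) := intB continuous_const _ _
  have i2 : IntegrableOn (fun z : V => nsq v z ^ 3 / l) (ball (0 : V) ρ) :=
    intB (((nsq_cont hv).pow 3).div_const l) _ _
  have e2 : L6 0 ρ v / l = ∫ z in ball (0 : V) ρ, nsq v z ^ 3 / l := by
    unfold L6
    rw [integral_div]
  rw [e1, e2, ← integral_add i1 i2]
  unfold L4
  refine setIntegral_mono (intB ((nsq_cont hv).pow 2) _ _) (i1.add i2) fun x => ?_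
  have hx := nsq_nonneg v x
  set y := nsq v x
  rcases le_total y l with h | h
  · have : 0 ≤ y ^ 3 / l := by positivity
    have : y ^ 2 ≤ l ^ 2 := pow_le_pow_left₀ hx h 2
    linarith
  · have h1 : y ^ 2 ≤ y ^ 3 / l := by
      rw [le_div_iff₀ hl]
      have : y ^ 2 * l ≤ y ^ 2 * y := mul_le_mul_of_nonneg_left h (by positivity)
      calc y ^ 2 * l ≤ y ^ 2 * y := this
        _ = y ^ 3 := by ring
    have : 0 ≤ l ^ 2 := by positivity
    linarith

theorem t_GROW (hP : S_POINC) (hS : S_SOB) : S_GROW := by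
  obtain ⟨C, hC, hP⟩ := hP
  obtain ⟨Cs, hCs, hS⟩ := hS
  obtain ⟨Ct, hCt0, hCt⟩ := th_bdd
  set K2 : ℝ := 4 * C + 384 * (Ct * C) with hK2
  have hK20 : 0 < K2 := by positivity
  set K3 : ℝ := Cs * (2 + K2) ^ 3 with hK3
  have hK30 : 0 < K3 := by positivity
  refine ⟨√(8 + K3), by positivity, fun v hv hmean k => ?_⟩
  have eS : ∑ j ∈ Finset.range (k + 2), 2 ^ j * √(B2 0 (2 ^ j) v / 8 ^ j)
      = ∑ j ∈ Finset.range (k + 2), tt v j := rfl
  rw [eS]
  set S := ∑ j ∈ Finset.range (k + 2), tt v j with hSd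
  have hS0 : 0 ≤ S := Finset.sum_nonneg fun _ _ => tt_nonneg _ _
  have hS1 : S = (∑ j ∈ Finset.range (k + 1), tt v j) + tt v (k + 1) := Finset.sum_range_succ _ _
  have hS2 : 0 ≤ ∑ j ∈ Finset.range (k + 1), tt v j := Finset.sum_nonneg fun _ _ => tt_nonneg _ _
  have ht : tt v (k + 1) ≤ S := by rw [hS1]; linarith
  have ht2 : tt v (k + 1) ^ 2 ≤ S ^ 2 := pow_le_pow_left₀ (tt_nonneg _ _) ht 2
  have h8 : (8 : ℝ) ^ k = 2 ^ k * 2 ^ k * 2 ^ k := by
    rw [← mul_pow, ← mul_pow]; norm_num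
  have hA := A2_bd hC hP hCt0 hCt hv hmean k
  have hL6 : L6 0 (2 ^ k) v ≤ K3 * 8 ^ k * (S ^ 2) ^ 3 := by
    refine (hS v hv 0 (2 ^ k) (by positivity)).trans ?_
    have hB : B2 0 (2 * 2 ^ k) v ≤ 2 * 2 ^ k * S ^ 2 := by
      rw [show (2 : ℝ) * 2 ^ k = 2 ^ (k + 1) by ring, tt_sq]
      exact mul_le_mul_of_nonneg_left ht2 (by positivity)
    have hA' : (((2 : ℝ) ^ k) ^ 2)⁻¹ * A2 0 (2 * 2 ^ k) v ≤ K2 * 2 ^ k * S ^ 2 := by
      calc (((2 : ℝ) ^ k) ^ 2)⁻¹ * A2 0 (2 * 2 ^ k) v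
          ≤ (((2 : ℝ) ^ k) ^ 2)⁻¹ * (K2 * 8 ^ k * S ^ 2) :=
            mul_le_mul_of_nonneg_left hA (by positivity)
        _ = K2 * 2 ^ k * S ^ 2 := by
          rw [h8]; field_simp
    have hAn : 0 ≤ (((2 : ℝ) ^ k) ^ 2)⁻¹ * A2 0 (2 * 2 ^ k) v :=
      mul_nonneg (by positivity)
        (setIntegral_nonneg measurableSet_ball fun x _ => nsq_nonneg v x)
    have h9 : (B2 0 (2 * 2 ^ k) v + (((2 : ℝ) ^ k) ^ 2)⁻¹ * A2 0 (2 * 2 ^ k) v) ^ 3
        ≤ ((2 + K2) * 2 ^ k * S ^ 2) ^ 3 := by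
      refine pow_le_pow_left₀ (add_nonneg (B2_nonneg _ _) hAn) ?_ 3
      calc _ ≤ 2 * 2 ^ k * S ^ 2 + K2 * 2 ^ k * S ^ 2 := add_le_add hB hA'
        _ = (2 + K2) * 2 ^ k * S ^ 2 := by ring
    calc _ ≤ Cs * ((2 + K2) * 2 ^ k * S ^ 2) ^ 3 := mul_le_mul_of_nonneg_left h9 hCs.le
      _ = K3 * 8 ^ k * (S ^ 2) ^ 3 := by rw [h8, hK3]; ring
  -- for every `l > S ^ 2`
  have hl : ∀ l : ℝ, 0 < l → S ^ 2 ≤ l → √(L4 0 (2 ^ k) v) ≤ √(8 + K3) * √(8 ^ k) * l := by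
    intro l hl0 hl1
    have h1 := L4_interp hv (ρ := 2 ^ k) (by positivity) hl0
    have h2 : L6 0 (2 ^ k) v / l ≤ K3 * 8 ^ k * l ^ 2 := by
      rw [div_le_iff₀ hl0]
      refine hL6.trans ?_
      have : (S ^ 2) ^ 3 ≤ l ^ 3 := pow_le_pow_left₀ (by positivity) hl1 3
      calc K3 * 8 ^ k * (S ^ 2) ^ 3 ≤ K3 * 8 ^ k * l ^ 3 :=
            mul_le_mul_of_nonneg_left this (by positivity)
        _ = K3 * 8 ^ k * l ^ 2 * l := by ring
    have h3 : L4 0 (2 ^ k) v ≤ (8 + K3) * 8 ^ k * l ^ 2 := by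
      calc _ ≤ (2 * (2 : ℝ) ^ k) ^ 3 * l ^ 2 + L6 0 (2 ^ k) v / l := h1
        _ ≤ (2 * (2 : ℝ) ^ k) ^ 3 * l ^ 2 + K3 * 8 ^ k * l ^ 2 := by linarith
        _ = (8 + K3) * 8 ^ k * l ^ 2 := by rw [h8]; ring
    refine (Real.sqrt_le_sqrt h3).trans ?_
    rw [Real.sqrt_mul (by positivity), Real.sqrt_mul (by positivity), Real.sqrt_sq hl0.le]
  have hc : 0 < √(8 + K3) * √((8 : ℝ) ^ k) := by positivity
  rw [← div_le_iff₀' hc]
  refine le_of_forall_pos_le_add fun ε hε => ?_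
  rw [div_le_iff₀' hc]
  exact hl (S ^ 2 + ε) (by positivity) (by linarith)

end Pool.Agent.W12.MD
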