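import Pool.Agent.W12.MD.Base

/-!
MD-HARM0: interior estimates for harmonic functions at unit scale (helper12).
-/

open MeasureTheory Set Metric
open scoped ContDiff ENNReal

namespace Pool.Agent.W12.MD

open H459R3.NS W221.NS

theorem diff_of {f : V → ℝ} (hf : ContDiff ℝ ∞ f) (x : V) : DifferentiableAt ℝ f x :=
  (hf.differentiable (by simp)) x

theorem pdm {f g : V → ℝ} (hf : ContDiff ℝ ∞ f) (hg : ContDiff ℝ ∞ g) (j : Fin 3) (x : V) :
    pd j (fun y => f y * g y) x = f x * pd j g x + pd j f x * g x := by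
  unfold pd
  have h : HasFDerivAt (fun y => f y * g y) _ x :=
    (diff_of hf x).hasFDerivAt.mul (diff_of hg x).hasFDerivAt
  rw [h.fderiv]
  simp only [add_apply, smul_apply, smul_eq_mul]
  ring

theorem pda {f g : V → ℝ} (hf : ContDiff ℝ ∞ f) (hg : ContDiff ℝ ∞ g) (j : Fin 3) (x : V) :
    pd j (fun y => f y + g y) x = pd j f x + pd j g x := by
  unfold pd
  have h : HasFDerivAt (fun y => f y + g y) _ x :=
    (diff_of hf x).hasFDerivAt.add (diff_of hg x).hasFDerivAt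
  rw [h.fderiv]
  simp

theorem pds {ι : Type*} {s : Finset ι} {f : ι → V → ℝ} (hf : ∀ i ∈ s, ContDiff ℝ ∞ (f i))
    (j : Fin 3) (x : V) : pd j (fun y => ∑ i ∈ s, f i y) x = ∑ i ∈ s, pd j (f i) x := by
  unfold pd
  have h : HasFDerivAt (fun y => ∑ i ∈ s, f i y) _ x :=
    HasFDerivAt.fun_sum fun i hi => (diff_of (hf i hi) x).hasFDerivAt
  rw [h.fderiv]
  simp

theorem pdc {f : V → ℝ} (hf : ContDiff ℝ ∞ f) (i j : Fin 3) : pd i (pd j f) = pd j (pd i f) := by
  funext x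
  have h2 : ContDiff ℝ 2 f := hf.of_le (by norm_cast)
  have hs : IsSymmSndFDerivAt ℝ f x := h2.contDiffAt.isSymmSndFDerivAt (by simp)
  have hd : DifferentiableAt ℝ (fderiv ℝ f) x :=
    ((h2.fderiv_right (m := 1) (by norm_num)).differentiable one_ne_zero) x
  have e : ∀ a b : Fin 3, pd a (pd b f) x
      = fderiv ℝ (fderiv ℝ f) x (Pi.single a 1) (Pi.single b 1) := by
    intro a b
    unfold pd
    have h3 : HasFDerivAt (fun y => fderiv ℝ f y (Pi.single b 1)) _ x :=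
      hd.hasFDerivAt.clm_apply (hasFDerivAt_const (Pi.single b (1 : ℝ) : V) x)
    rw [h3.fderiv]
    simp
  rw [e, e]
  exact hs _ _

/-- the integral of a derivative of a function with compact support vanishes -/
theorem int_pd_zero {f : V → ℝ} (hf : ContDiff ℝ ∞ f) (hc : HasCompactSupport f) (j : Fin 3) :
    ∫ x, pd j f x = 0 := by
  have hc' : HasCompactSupport (pd j f) := hc.fderiv_apply ℝ (Pi.single j 1)
  have h := integral_mul_fderiv_eq_neg_fderiv_mul_of_integrable (μ := (volume : Measure V))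
    (f := fun _ : V => (1 : ℝ)) (g := f) (v := Pi.single j 1)
    (by simp) (by
      simp only [one_mul]
      exact (smooth_pd hf j).continuous.integrable_of_hasCompactSupport hc')
    (by
      simp only [one_mul]
      exact hf.continuous.integrable_of_hasCompactSupport hc)
    (fun x _ => differentiableAt_const _) (fun x _ => diff_of hf x)
  simpa [pd] using h

/-- harmonic in the unit ball -/
def Har (h : V → ℝ) : Prop := ContDiff ℝ ∞ h ∧ ∀ x ∈ ball (0 : V) 1, lap h x = 0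

theorem Har.pd {h : V → ℝ} (hh : Har h) (j : Fin 3) : Har (pd j h) := by
  refine ⟨smooth_pd hh.1 j, fun x hx => ?_⟩
  have e : lap (H459R3.NS.pd j h) x = H459R3.NS.pd j (lap h) x := by
    unfold lap
    rw [pds (fun i _ => smooth_pd (smooth_pd hh.1 i) i)]
    refine Finset.sum_congr rfl fun i _ => ?_
    rw [pdc hh.1 i j, pdc (smooth_pd hh.1 i) i j]
  rw [e]
  have h0 : lap h =ᶠ[nhds x] fun _ => 0 := by
    filter_upwards [isOpen_ball.mem_nhds hx] with y hy
    exact hh.2 y hy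
  unfold H459R3.NS.pd
  rw [h0.fderiv_eq]
  simp

/-- the local L2 norm -/
noncomputable def N2 (ρ : ℝ) (h : V → ℝ) : ℝ := ∫ x in ball (0 : V) ρ, h x ^ 2

theorem N2_nonneg (ρ : ℝ) (h : V → ℝ) : 0 ≤ N2 ρ h :=
  setIntegral_nonneg measurableSet_ball fun _ _ => sq_nonneg _

theorem N2_mono {ρ ρ' : ℝ} (hρ : ρ ≤ ρ') {h : V → ℝ} (hh : ContDiff ℝ ∞ h) :
    N2 ρ h ≤ N2 ρ' h :=
  setIntegral_mono_set (intB (hh.continuous.pow 2) _ _)
    (Filter.Eventually.of_forall fun _ => sq_nonneg _)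
    (ball_subset_ball hρ).eventuallyLE

/-- Caccioppoli -/
theorem cacc {ρ' ρ : ℝ} (h0 : 0 < ρ') (h1 : ρ' < ρ) (h2 : ρ ≤ 1) : ∃ C : ℝ, 0 < C ∧
    ∀ h : V → ℝ, Har h → ∀ j, N2 ρ' (pd j h) ≤ C * N2 ρ h := by
  let χ : ContDiffBump (0 : V) := ⟨ρ', ρ, h0, h1⟩
  have hχs : ContDiff ℝ ∞ (χ : V → ℝ) := χ.contDiff
  have hχ0 : ∀ x ∉ ball (0 : V) ρ, χ x = 0 := by
    intro x hx
    refine χ.zero_of_le_dist ?_
    rw [mem_ball, not_lt] at hx
    exact hx
  have hχ1 : ∀ x ∈ ball (0 : V) ρ', χ x = 1 := fun x hx =>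
    χ.one_of_mem_closedBall (ball_subset_closedBall hx)
  have hb : ∀ j : Fin 3, ∃ K : ℝ, ∀ x ∈ closedBall (0 : V) 1, ‖pd j (χ : V → ℝ) x‖ ≤ K := fun j =>
    (isCompact_closedBall (0 : V) 1).exists_bound_of_continuousOn
      (smooth_pd hχs j).continuous.continuousOn
  choose K hK using hb
  set L : ℝ := ∑ j, K j ^ 2 with hL
  have hL0 : 0 ≤ L := Finset.sum_nonneg fun _ _ => sq_nonneg _
  refine ⟨4 * L + 1, by positivity, fun h hh j => ?_⟩
  have hs := hh.1
  -- the flux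
  set F : Fin 3 → V → ℝ := fun j x => (χ x * χ x) * (h x * pd j h x) with hF
  have hχχ : ContDiff ℝ ∞ (fun x => χ x * χ x) := hχs.mul hχs
  have hhh : ∀ j, ContDiff ℝ ∞ (fun x => h x * pd j h x) := fun j => hs.mul (smooth_pd hs j)
  have hFs : ∀ j, ContDiff ℝ ∞ (F j) := fun j => hχχ.mul (hhh j)
  have hFc : ∀ j, HasCompactSupport (F j) := fun j => by
    refine HasCompactSupport.intro (isCompact_closedBall (0 : V) ρ) fun x hx => ?_
    simp only [hF]
    rw [hχ0 x fun h => hx (ball_subset_closedBall h)]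
    ring
  have hFd : ∀ j x, pd j (F j) x = (χ x * χ x) * (h x * pd j (pd j h) x + pd j h x * pd j h x)
      + (χ x * pd j χ x + pd j χ x * χ x) * (h x * pd j h x) := by
    intro j x
    simp only [hF]
    rw [pdm hχχ (hhh j), pdm hs (smooth_pd hs j), pdm hχs hχs]
  have hint : ∫ x in ball (0 : V) ρ, ∑ j, pd j (F j) x = 0 := by
    rw [integral_finsetSum _ fun i _ => intB (smooth_pd (hFs i) i).continuous _ _]
    refine Finset.sum_eq_zero fun i _ => ?_
    rw [← int_pd_zero (hFs i) (hFc i) i, ← integral_indicator measurableSet_ball]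
    congr 1
    funext x
    by_cases hx : x ∈ ball (0 : V) ρ
    · rw [indicator_of_mem hx]
    · rw [indicator_of_notMem hx, hFd, hχ0 x hx]
      ring
  have hgc : Continuous (fun x => χ x ^ 2 * ∑ j, pd j h x ^ 2) :=
    (hχs.continuous.pow 2).mul
      (continuous_finsetSum _ fun j _ => (smooth_pd hs j).continuous.pow 2)
  have hGc : Continuous (fun x => ∑ j, pd j (F j) x) :=
    continuous_finsetSum _ fun j _ => (smooth_pd (hFs j) j).continuous
  have hhc : Continuous (fun x => 2 * L * h x ^ 2) :=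
    continuous_const.mul (hs.continuous.pow 2)
  -- pointwise
  have hpt : ∀ x ∈ ball (0 : V) ρ, (1 / 2) * (χ x ^ 2 * ∑ j, pd j h x ^ 2)
      ≤ (∑ j, pd j (F j) x) + 2 * L * h x ^ 2 := by
    intro x hx
    have hx1 : x ∈ ball (0 : V) 1 := ball_subset_ball h2 hx
    have e1 : ∑ j, pd j (F j) x = χ x ^ 2 * h x * lap h x
        + ∑ j, (χ x ^ 2 * pd j h x ^ 2 + 2 * (χ x * pd j χ x) * (h x * pd j h x)) := by
      unfold lap
      rw [Finset.mul_sum, ← Finset.sum_add_distrib]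
      refine Finset.sum_congr rfl fun j _ => ?_
      rw [hFd]
      ring
    rw [e1, hh.2 x hx1, mul_zero, zero_add, Finset.mul_sum, Finset.mul_sum]
    have e2 : 2 * L * h x ^ 2 = ∑ j, 2 * K j ^ 2 * h x ^ 2 := by
      rw [hL, Finset.mul_sum, Finset.sum_mul]
    rw [e2, ← Finset.sum_add_distrib]
    refine Finset.sum_le_sum fun j _ => ?_
    have hk : pd j (χ : V → ℝ) x ^ 2 ≤ K j ^ 2 := by
      have := hK j x (ball_subset_closedBall hx1)
      rw [← sq_abs]
      exact pow_le_pow_left₀ (abs_nonneg _) this 2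
    have h5 : pd j (χ : V → ℝ) x ^ 2 * h x ^ 2 ≤ K j ^ 2 * h x ^ 2 :=
      mul_le_mul_of_nonneg_right hk (sq_nonneg _)
    nlinarith [sq_nonneg (χ x * pd j h x + 2 * (h x * pd j χ x))]
  have hI : (1 / 2) * ∫ x in ball (0 : V) ρ, χ x ^ 2 * ∑ j, pd j h x ^ 2
      ≤ 2 * L * N2 ρ h := by
    rw [← integral_const_mul]
    refine (setIntegral_mono_on ((intB hgc _ _).const_mul _)
      ((intB hGc _ _).add (intB hhc _ _)) measurableSet_ball hpt).trans (le_of_eq ?_)
    have := integral_add (intB hGc (0 : V) ρ) (intB hhc (0 : V) ρ)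
    rw [hint, zero_add, integral_const_mul] at this
    exact this
  have hfin : N2 ρ' (pd j h) ≤ ∫ x in ball (0 : V) ρ, χ x ^ 2 * ∑ j, pd j h x ^ 2 := by
    have h6 : N2 ρ' (pd j h) ≤ ∫ x in ball (0 : V) ρ', χ x ^ 2 * ∑ j, pd j h x ^ 2 := by
      refine setIntegral_mono_on (intB ((smooth_pd hs j).continuous.pow 2) _ _)
        (intB hgc _ _) measurableSet_ball fun x hx => ?_
      rw [hχ1 x hx, one_pow, one_mul]
      exact Finset.single_le_sum (f := fun j => pd j h x ^ 2) (fun i _ => sq_nonneg _)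
        (Finset.mem_univ j)
    refine h6.trans (setIntegral_mono_set (intB hgc _ _)
      (Filter.Eventually.of_forall fun x => ?_) (ball_subset_ball h1.le).eventuallyLE)
    exact mul_nonneg (sq_nonneg _) (Finset.sum_nonneg fun _ _ => sq_nonneg _)
  have := N2_nonneg ρ h
  nlinarith

/-- iterated derivatives -/
noncomputable def DL : List (Fin 3) → (V → ℝ) → V → ℝ
  | [], h => h
  | j :: l, h => pd j (DL l h)

theorem Har.DL {h : V → ℝ} (hh : Har h) (l : List (Fin 3)) : Har (DL l h) := by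
  induction l with
  | nil => exact hh
  | cons j l ih => exact ih.pd j

theorem chain (n : ℕ) : ∀ ρ : ℝ, 0 < ρ → ρ < 1 → ∃ C : ℝ, 0 < C ∧
    ∀ l : List (Fin 3), l.length = n → ∀ h : V → ℝ, Har h → N2 ρ (DL l h) ≤ C * N2 1 h := by
  induction n with
  | zero =>
    intro ρ _ h1
    refine ⟨1, one_pos, fun l hl h hh => ?_⟩
    rw [List.length_eq_zero_iff] at hl
    subst hl
    rw [one_mul]
    exact N2_mono h1.le hh.1
  | succ n ih =>
    intro ρ h0 h1
    obtain ⟨C1, hC1, h3⟩ := ih ((ρ + 1) / 2) (by linarith) (by linarith)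
    obtain ⟨C2, hC2, h4⟩ := cacc h0 (by linarith : ρ < (ρ + 1) / 2) (by linarith)
    refine ⟨C2 * C1, by positivity, fun l hl h hh => ?_⟩
    rcases l with _ | ⟨j, l⟩
    · simp at hl
    · have hl' : l.length = n := by simpa using hl
      refine (h4 _ (hh.DL l) j).trans ?_
      rw [mul_assoc]
      exact mul_le_mul_of_nonneg_left (h3 l hl' h hh) hC2.le

theorem chain5 : ∃ C : ℝ, 0 < C ∧ ∀ l : List (Fin 3), l.length ≤ 5 → ∀ h : V → ℝ, Har h →
    N2 (1 / 2) (DL l h) ≤ C * N2 1 h := by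
  choose C hC hC2 using fun n => chain n (1 / 2) (by norm_num) (by norm_num)
  refine ⟨∑ n ∈ Finset.range 6, C n, Finset.sum_pos (fun n _ => hC n) (by simp), fun l hl h hh => ?_⟩
  refine (hC2 _ l rfl h hh).trans (mul_le_mul_of_nonneg_right ?_ (N2_nonneg _ _))
  exact Finset.single_le_sum (fun n _ => (hC n).le) (Finset.mem_range.2 (by omega))

/-! ### The pointwise bound -/

theorem step1 {F : V → ℝ} (hF : ContDiff ℝ ∞ F) (hc : HasCompactSupport F) (i : Fin 3) :
    (fun x => ‖F x‖ₑ) ≤ ∫⋯∫⁻_{i}, (fun x => ‖pd i F x‖ₑ) ∂(fun _ => (volume : Measure ℝ)) := by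
  intro x
  rw [lmarginal_singleton]
  have hd : ∀ y : ℝ, deriv (F ∘ Function.update x i) y = pd i F (Function.update x i y) := by
    intro y
    rw [fderiv_comp_deriv _ (diff_of hF _) (hasDerivAt_update x i y).differentiableAt,
      (hasDerivAt_update x i y).deriv]
    rfl
  calc ‖F x‖ₑ ≤ ∫⁻ xᵢ in Iic (x i), ‖deriv (F ∘ Function.update x i) xᵢ‖ₑ := by
        apply le_trans (by simp) (HasCompactSupport.enorm_le_lintegral_Ici_deriv _ _ _)
        · exact (hF.of_le (by norm_cast)).comp (by convert! contDiff_update 1 x i)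
        · exact hc.comp_isClosedEmbedding (isClosedEmbedding_update x i)
    _ ≤ ∫⁻ xᵢ, ‖deriv (F ∘ Function.update x i) xᵢ‖ₑ := setLIntegral_le_lintegral _ _
    _ = ∫⁻ xᵢ, ‖pd i F (Function.update x i xᵢ)‖ₑ := by simp_rw [hd]

theorem sup_le {F : V → ℝ} (hF : ContDiff ℝ ∞ F) (hc : HasCompactSupport F) (x : V) :
    |F x| ≤ ∫ y, |pd 2 (pd 1 (pd 0 F)) y| := by
  have c0 : HasCompactSupport (pd 0 F) := hc.fderiv_apply ℝ (Pi.single 0 1)
  have s0 := smooth_pd hF 0
  have c1 : HasCompactSupport (pd 1 (pd 0 F)) := c0.fderiv_apply ℝ (Pi.single 1 1)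
  have s1 := smooth_pd s0 1
  have c2 : HasCompactSupport (pd 2 (pd 1 (pd 0 F))) := c1.fderiv_apply ℝ (Pi.single 2 1)
  have s2 := smooth_pd s1 2
  set G : V → ℝ≥0∞ := fun x => ‖pd 2 (pd 1 (pd 0 F)) x‖ₑ with hG
  have hGm : Measurable G := s2.continuous.measurable.enorm
  have hGm2 : Measurable (∫⋯∫⁻_{2}, G ∂(fun _ => (volume : Measure ℝ))) := hGm.lmarginal _
  have h1 : (fun x => ‖F x‖ₑ) ≤ ∫⋯∫⁻_{0}, (∫⋯∫⁻_{1}, (∫⋯∫⁻_{2}, G ∂(fun _ => volume))
      ∂(fun _ => volume)) ∂(fun _ => (volume : Measure ℝ)) := by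
    refine (step1 hF hc 0).trans (lmarginal_mono ?_)
    refine (step1 s0 c0 1).trans (lmarginal_mono ?_)
    exact step1 s1 c1 2
  rw [← lmarginal_union _ G hGm (by decide), ← lmarginal_union _ G hGm (by decide),
    show (({0} : Finset (Fin 3)) ∪ ({1} ∪ {2})) = Finset.univ by decide, lmarginal_univ] at h1
  have h2 := h1 x
  beta_reduce at h2
  have h3 : ∫ y, |pd 2 (pd 1 (pd 0 F)) y| = (∫⁻ y, G y).toReal := by
    have := integral_norm_eq_lintegral_enorm (μ := (volume : Measure V))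
      (f := pd 2 (pd 1 (pd 0 F))) s2.continuous.aestronglyMeasurable
    exact this
  have h4 : ∫⁻ y, G y ≠ ⊤ := (s2.continuous.integrable_of_hasCompactSupport c2).2.ne
  rw [h3, ← ENNReal.ofReal_le_iff_le_toReal h4]
  rw [← Real.enorm_eq_ofReal_abs]
  exact h2

/-- Jensen on the ball of radius one half (measure one) -/
theorem jensB {f : V → ℝ} (hf : Continuous f) :
    (∫ x in ball (0 : V) (1 / 2), f x) ^ 2 ≤ ∫ x in ball (0 : V) (1 / 2), f x ^ 2 := by
  set m := ∫ x in ball (0 : V) (1 / 2), f x with hm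
  have h0 : 0 ≤ ∫ x in ball (0 : V) (1 / 2), (f x - m) ^ 2 :=
    setIntegral_nonneg measurableSet_ball fun _ _ => sq_nonneg _
  have e : ∀ x, (f x - m) ^ 2 = f x ^ 2 - 2 * m * f x + m ^ 2 := fun s => by ring
  have i1 : IntegrableOn (fun x => f x ^ 2) (ball (0 : V) (1 / 2)) := intB (hf.pow 2) _ _
  have i2 : IntegrableOn (fun x => 2 * m * f x) (ball (0 : V) (1 / 2)) :=
    (intB hf _ _).const_mul _
  have i3 : IntegrableOn (fun _ : V => m ^ 2) (ball (0 : V) (1 / 2)) := intB continuous_const _ _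
  have i4 : IntegrableOn (fun x => f x ^ 2 - 2 * m * f x) (ball (0 : V) (1 / 2)) := i1.sub i2
  have hv : (volume : Measure V).real (ball 0 (1 / 2)) = 1 := by
    unfold Measure.real
    rw [Real.volume_pi_ball _ (by norm_num)]
    norm_num
  simp_rw [e] at h0
  rw [integral_add i4 i3, integral_sub i1 i2, integral_const_mul, ← hm, setIntegral_const, hv,
    one_smul] at h0
  linarith

theorem t_pw : ∃ C : ℝ, 0 < C ∧ ∀ f : V → ℝ, ContDiff ℝ ∞ f →
    f 0 ^ 2 ≤ C * (N2 (1 / 2) f + N2 (1 / 2) (pd 0 f) + N2 (1 / 2) (pd 1 f) + N2 (1 / 2) (pd 2 f)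
      + N2 (1 / 2) (pd 1 (pd 0 f)) + N2 (1 / 2) (pd 2 (pd 0 f)) + N2 (1 / 2) (pd 2 (pd 1 f))
      + N2 (1 / 2) (pd 2 (pd 1 (pd 0 f)))) := by
  let χ : ContDiffBump (0 : V) := ⟨1 / 4, 2 / 5, by norm_num, by norm_num⟩
  have hχs : ContDiff ℝ ∞ (χ : V → ℝ) := χ.contDiff
  have hχ1 : χ (0 : V) = 1 := χ.one_of_mem_closedBall (mem_closedBall_self (by norm_num))
  have hχ0 : ∀ x ∉ ball (0 : V) (2 / 5), χ x = 0 := by
    intro x hx
    refine χ.zero_of_le_dist ?_
    rw [mem_ball, not_lt] at hx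
    exact hx
  have s0 := smooth_pd hχs 0
  have s1 := smooth_pd hχs 1
  have s2 := smooth_pd hχs 2
  have s10 := smooth_pd s0 1
  have s20 := smooth_pd s0 2
  have s21 := smooth_pd s1 2
  have s210 := smooth_pd s10 2
  have hbd : ∀ u : V → ℝ, Continuous u → ∃ K : ℝ, ∀ x ∈ closedBall (0 : V) 1, ‖u x‖ ≤ K :=
    fun u hu => (isCompact_closedBall (0 : V) 1).exists_bound_of_continuousOn hu.continuousOn
  obtain ⟨K1, hK1⟩ := hbd _ hχs.continuous
  obtain ⟨K2, hK2⟩ := hbd _ s0.continuous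
  obtain ⟨K3, hK3⟩ := hbd _ s1.continuous
  obtain ⟨K4, hK4⟩ := hbd _ s2.continuous
  obtain ⟨K5, hK5⟩ := hbd _ s10.continuous
  obtain ⟨K6, hK6⟩ := hbd _ s20.continuous
  obtain ⟨K7, hK7⟩ := hbd _ s21.continuous
  obtain ⟨K8, hK8⟩ := hbd _ s210.continuous
  set K : ℝ := K1 ^ 2 + K2 ^ 2 + K3 ^ 2 + K4 ^ 2 + K5 ^ 2 + K6 ^ 2 + K7 ^ 2 + K8 ^ 2 + 1 with hK
  refine ⟨K, by positivity, fun f hf => ?_⟩
  set F : V → ℝ := fun x => χ x * f x with hF
  have hFs : ContDiff ℝ ∞ F := hχs.mul hf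
  have hFc : HasCompactSupport F := by
    refine HasCompactSupport.intro (isCompact_closedBall (0 : V) (2 / 5)) fun x hx => ?_
    simp only [hF]
    rw [hχ0 x fun h => hx (ball_subset_closedBall h)]
    ring
  have f0 := smooth_pd hf 0
  have f1 := smooth_pd hf 1
  have f2 := smooth_pd hf 2
  have f10 := smooth_pd f0 1
  have f20 := smooth_pd f0 2
  have f21 := smooth_pd f1 2
  have f210 := smooth_pd f10 2
  have e0 : pd 0 F = fun x => χ x * pd 0 f x + pd 0 χ x * f x := by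
    funext x; exact pdm hχs hf 0 x
  have e1 : pd 1 (pd 0 F) = fun x => (χ x * pd 1 (pd 0 f) x + pd 1 χ x * pd 0 f x)
      + (pd 0 χ x * pd 1 f x + pd 1 (pd 0 χ) x * f x) := by
    rw [e0]
    funext x
    rw [pda (hχs.mul f0) (s0.mul hf), pdm hχs f0, pdm s0 hf]
  have e2 : pd 2 (pd 1 (pd 0 F)) = fun x =>
      ((χ x * pd 2 (pd 1 (pd 0 f)) x + pd 2 χ x * pd 1 (pd 0 f) x)
        + (pd 1 χ x * pd 2 (pd 0 f) x + pd 2 (pd 1 χ) x * pd 0 f x))
      + ((pd 0 χ x * pd 2 (pd 1 f) x + pd 2 (pd 0 χ) x * pd 1 f x)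
        + (pd 1 (pd 0 χ) x * pd 2 f x + pd 2 (pd 1 (pd 0 χ)) x * f x)) := by
    rw [e1]
    funext x
    rw [pda ((hχs.mul f10).add (s1.mul f0)) ((s0.mul f1).add (s10.mul hf)),
      pda (hχs.mul f10) (s1.mul f0), pda (s0.mul f1) (s10.mul hf),
      pdm hχs f10, pdm s1 f0, pdm s0 f1, pdm s10 hf]
  have sD := smooth_pd (smooth_pd (smooth_pd hFs 0) 1) 2
  set D := pd 2 (pd 1 (pd 0 F)) with hD
  have hts : tsupport D ⊆ tsupport F :=
    ((tsupport_fderiv_apply_subset ℝ (Pi.single 2 1)).trans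
      ((tsupport_fderiv_apply_subset ℝ (Pi.single 1 1)).trans
        (tsupport_fderiv_apply_subset ℝ (Pi.single 0 1))))
  have htF : tsupport F ⊆ closedBall (0 : V) (2 / 5) := by
    refine closure_minimal (fun x hx => ?_) isClosed_closedBall
    by_contra hx2
    refine hx ?_
    simp only [hF]
    rw [hχ0 x fun h => hx2 (ball_subset_closedBall h)]
    ring
  have hD0 : ∀ x ∉ ball (0 : V) (1 / 2), D x = 0 := by
    intro x hx
    by_contra hne
    exact hx (closedBall_subset_ball (by norm_num) (htF (hts (subset_tsupport _ hne))))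
  have h1 : |F 0| ≤ ∫ y in ball (0 : V) (1 / 2), |D y| := by
    have := sup_le hFs hFc 0
    have e3 : ∫ y, |pd 2 (pd 1 (pd 0 F)) y| = ∫ y in ball (0 : V) (1 / 2), |D y| := by
      rw [← integral_indicator measurableSet_ball]
      congr 1
      funext x
      by_cases hx : x ∈ ball (0 : V) (1 / 2)
      · rw [indicator_of_mem hx]
      · rw [indicator_of_notMem hx, ← hD, hD0 x hx, abs_zero]
    rwa [e3] at this
  have hF0 : F 0 = f 0 := by simp only [hF]; rw [hχ1, one_mul]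
  have h2 : f 0 ^ 2 ≤ ∫ y in ball (0 : V) (1 / 2), D y ^ 2 := by
    rw [← hF0, ← sq_abs]
    refine (pow_le_pow_left₀ (abs_nonneg _) h1 2).trans ?_
    refine (jensB sD.continuous.abs).trans (le_of_eq ?_)
    simp_rw [sq_abs]
  refine h2.trans ?_
  have hc : ∀ u : V → ℝ, ContDiff ℝ ∞ u → IntegrableOn (fun x => u x ^ 2) (ball (0 : V) (1 / 2)) :=
    fun u hu => intB (hu.continuous.pow 2) _ _
  have hi1 := hc f hf
  have hi2 := hc _ f0
  have hi3 := hc _ f1
  have hi4 := hc _ f2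
  have hi5 := hc _ f10
  have hi6 := hc _ f20
  have hi7 := hc _ f21
  have hi8 := hc _ f210
  have e4 : K * (N2 (1 / 2) f + N2 (1 / 2) (pd 0 f) + N2 (1 / 2) (pd 1 f) + N2 (1 / 2) (pd 2 f)
      + N2 (1 / 2) (pd 1 (pd 0 f)) + N2 (1 / 2) (pd 2 (pd 0 f)) + N2 (1 / 2) (pd 2 (pd 1 f))
      + N2 (1 / 2) (pd 2 (pd 1 (pd 0 f)))) = ∫ x in ball (0 : V) (1 / 2), K * (f x ^ 2
        + pd 0 f x ^ 2 + pd 1 f x ^ 2 + pd 2 f x ^ 2 + pd 1 (pd 0 f) x ^ 2 + pd 2 (pd 0 f) x ^ 2
        + pd 2 (pd 1 f) x ^ 2 + pd 2 (pd 1 (pd 0 f)) x ^ 2) := by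
    unfold N2
    rw [integral_const_mul]
    congr 1
    symm
    have g2 := hi1.add hi2
    have g3 := g2.add hi3
    have g4 := g3.add hi4
    have g5 := g4.add hi5
    have g6 := g5.add hi6
    have g7 := g6.add hi7
    refine (integral_add g7 hi8).trans ?_
    congr 1
    refine (integral_add g6 hi7).trans ?_
    congr 1
    refine (integral_add g5 hi6).trans ?_
    congr 1
    refine (integral_add g4 hi5).trans ?_
    congr 1
    refine (integral_add g3 hi4).trans ?_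
    congr 1
    refine (integral_add g2 hi3).trans ?_
    congr 1
    exact integral_add hi1 hi2
  rw [e4]
  have cR : Continuous (fun x => K * (f x ^ 2
        + pd 0 f x ^ 2 + pd 1 f x ^ 2 + pd 2 f x ^ 2 + pd 1 (pd 0 f) x ^ 2 + pd 2 (pd 0 f) x ^ 2
        + pd 2 (pd 1 f) x ^ 2 + pd 2 (pd 1 (pd 0 f)) x ^ 2)) := by
    have := hf.continuous
    have := f0.continuous
    have := f1.continuous
    have := f2.continuous
    have := f10.continuous
    have := f20.continuous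
    have := f21.continuous
    have := f210.continuous
    fun_prop
  refine setIntegral_mono_on (hc _ sD) (intB cR _ _) measurableSet_ball fun x hx => ?_
  have hx1 : x ∈ closedBall (0 : V) 1 :=
    ball_subset_closedBall (ball_subset_ball (by norm_num) hx)
  have hsq : ∀ (u : V → ℝ) (L : ℝ), (∀ x ∈ closedBall (0 : V) 1, ‖u x‖ ≤ L) →
      u x ^ 2 ≤ L ^ 2 := by
    intro u L h
    rw [← sq_abs]
    exact pow_le_pow_left₀ (abs_nonneg _) (h x hx1) 2
  have q1 := hsq _ _ hK1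
  have q2 := hsq _ _ hK2
  have q3 := hsq _ _ hK3
  have q4 := hsq _ _ hK4
  have q5 := hsq _ _ hK5
  have q6 := hsq _ _ hK6
  have q7 := hsq _ _ hK7
  have q8 := hsq _ _ hK8
  have hCS := Finset.sum_mul_sq_le_sq_mul_sq (Finset.univ : Finset (Fin 8))
    ![χ x, pd 0 χ x, pd 1 χ x, pd 2 χ x, pd 1 (pd 0 χ) x, pd 2 (pd 0 χ) x, pd 2 (pd 1 χ) x,
      pd 2 (pd 1 (pd 0 χ)) x]
    ![pd 2 (pd 1 (pd 0 f)) x, pd 2 (pd 1 f) x, pd 2 (pd 0 f) x, pd 1 (pd 0 f) x, pd 2 f x,
      pd 1 f x, pd 0 f x, f x]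
  simp only [Fin.sum_univ_eight, Matrix.cons_val] at hCS
  have e5 : D x = _ := congrFun e2 x
  rw [e5]
  beta_reduce
  set S1 := χ x ^ 2 + pd 0 χ x ^ 2 + pd 1 χ x ^ 2 + pd 2 χ x ^ 2 + pd 1 (pd 0 χ) x ^ 2
    + pd 2 (pd 0 χ) x ^ 2 + pd 2 (pd 1 χ) x ^ 2 + pd 2 (pd 1 (pd 0 χ)) x ^ 2 with hS1
  have hS1K : S1 ≤ K := by rw [hS1, hK]; linarith
  have hnn : 0 ≤ f x ^ 2
        + pd 0 f x ^ 2 + pd 1 f x ^ 2 + pd 2 f x ^ 2 + pd 1 (pd 0 f) x ^ 2 + pd 2 (pd 0 f) x ^ 2
        + pd 2 (pd 1 f) x ^ 2 + pd 2 (pd 1 (pd 0 f)) x ^ 2 := by positivity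
  refine le_trans (le_trans (le_of_eq ?_) hCS) (le_trans (le_of_eq ?_)
    (mul_le_mul_of_nonneg_right hS1K hnn))
  · ring
  · ring

theorem t_HARM0 : S_HARM0 := by
  obtain ⟨C1, hC1, h1⟩ := chain5
  obtain ⟨C2, hC2, h2⟩ := t_pw
  -- the value of a derivative at zero
  have key : ∀ g : V → ℝ, Har g → ∀ l : List (Fin 3), l.length ≤ 2 →
      DL l g 0 ^ 2 ≤ C2 * (8 * C1) * N2 1 g := by
    intro g hg l hl
    have hf := (hg.DL l).1
    refine (h2 _ hf).trans ?_
    rw [mul_assoc]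
    refine mul_le_mul_of_nonneg_left ?_ hC2.le
    have a1 := h1 l (by omega) g hg
    have a2 := h1 (0 :: l) (by simp; omega) g hg
    have a3 := h1 (1 :: l) (by simp; omega) g hg
    have a4 := h1 (2 :: l) (by simp; omega) g hg
    have a5 := h1 (1 :: 0 :: l) (by simp; omega) g hg
    have a6 := h1 (2 :: 0 :: l) (by simp; omega) g hg
    have a7 := h1 (2 :: 1 :: l) (by simp; omega) g hg
    have a8 := h1 (2 :: 1 :: 0 :: l) (by simp; omega) g hg
    simp only [DL] at a1 a2 a3 a4 a5 a6 a7 a8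
    linarith
  refine ⟨C2 * (8 * C1), by positivity, fun g hg hl i => ⟨?_, fun j => ?_⟩⟩
  · exact key g ⟨hg, hl⟩ [i] (by simp)
  · exact key g ⟨hg, hl⟩ [i, j] (by simp)

end Pool.Agent.W12.MD
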