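import Pool.Agent.W12.MD.Base

/-!
MD-POINC: the Poincare inequality on a cube with weighted mean zero (helper12).
-/

open MeasureTheory Set Metric
open scoped ContDiff ENNReal

namespace Pool.Agent.W12.MD

open H459R3.NS W221.NS

/-- the squared gradient of a scalar function -/
noncomputable def gg (f : V → ℝ) (x : V) : ℝ := ∑ j, pd j f x ^ 2

theorem gg_nonneg (f : V → ℝ) (x : V) : 0 ≤ gg f x := Finset.sum_nonneg fun _ _ => sq_nonneg _

theorem gg_cont {f : V → ℝ} (hf : ContDiff ℝ ∞ f) : Continuous (gg f) :=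
  continuous_finsetSum _ fun j _ => (smooth_pd hf j).continuous.pow 2

/-- Jensen on the unit interval -/
theorem sq_int_le {p : ℝ → ℝ} (hp : Continuous p) :
    (∫ s in (0 : ℝ)..1, p s) ^ 2 ≤ ∫ s in (0 : ℝ)..1, p s ^ 2 := by
  set m := ∫ s in (0 : ℝ)..1, p s with hm
  have h0 : 0 ≤ ∫ s in (0 : ℝ)..1, (p s - m) ^ 2 :=
    intervalIntegral.integral_nonneg (by norm_num) fun s _ => sq_nonneg _
  have h1 : ∫ s in (0 : ℝ)..1, (p s - m) ^ 2
      = (∫ s in (0 : ℝ)..1, p s ^ 2) - m ^ 2 := by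
    have e : ∀ s, (p s - m) ^ 2 = p s ^ 2 - 2 * m * p s + m ^ 2 := fun s => by ring
    simp_rw [e]
    rw [intervalIntegral.integral_add, intervalIntegral.integral_sub,
      intervalIntegral.integral_const_mul, ← hm, intervalIntegral.integral_const]
    · simp only [sub_zero, smul_eq_mul]; ring
    · exact (hp.pow 2).intervalIntegrable _ _
    · exact (hp.const_mul (2 * m)).intervalIntegrable _ _
    · exact ((hp.pow 2).sub (hp.const_mul (2 * m))).intervalIntegrable _ _
    · exact continuous_const.intervalIntegrable _ _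
  linarith

/-- the basic pointwise estimate along the segment -/
theorem seg {f : V → ℝ} (hf : ContDiff ℝ ∞ f) {y z : V} (hy : y ∈ ball (0 : V) 2)
    (hz : z ∈ ball (0 : V) 2) :
    (f z - f y) ^ 2 ≤ 48 * ∫ s in (0 : ℝ)..1, gg f (y + s • (z - y)) := by
  have hd : Differentiable ℝ f := hf.differentiable (by simp)
  have hφ : ∀ s : ℝ, HasDerivAt (fun s : ℝ => f (y + s • (z - y)))
      (fderiv ℝ f (y + s • (z - y)) (z - y)) s := by
    intro s
    have h1 : HasDerivAt (fun s : ℝ => y + s • (z - y)) (z - y) s := by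
      have h2 := ((hasDerivAt_id s).smul_const (z - y)).const_add y
      simpa using h2
    exact (hd _).hasFDerivAt.comp_hasDerivAt s h1
  have hcl : Continuous (fun s : ℝ => y + s • (z - y)) := by fun_prop
  have hc : Continuous (fun s : ℝ => fderiv ℝ f (y + s • (z - y)) (z - y)) := by
    have h3 : Continuous (fderiv ℝ f) := hf.continuous_fderiv (by simp)
    exact (h3.comp hcl).clm_apply continuous_const
  have hftc := intervalIntegral.integral_eq_sub_of_hasDerivAt (a := (0 : ℝ)) (b := 1)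
    (fun s _ => hφ s) (hc.intervalIntegrable _ _)
  simp only [one_smul, add_sub_cancel, zero_smul, add_zero] at hftc
  rw [← hftc]
  refine (sq_int_le hc).trans ?_
  rw [← intervalIntegral.integral_const_mul]
  refine intervalIntegral.integral_mono_on (by norm_num) ((hc.pow 2).intervalIntegrable _ _)
    ((((gg_cont hf).comp hcl).const_mul 48).intervalIntegrable _ _) fun s _ => ?_
  rw [fderiv_sum]
  refine (Finset.sum_mul_sq_le_sq_mul_sq _ _ _).trans ?_
  refine mul_le_mul_of_nonneg_right ?_ (gg_nonneg _ _)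
  have hb : ∀ j ∈ (Finset.univ : Finset (Fin 3)), (z - y) j ^ 2 ≤ 16 := by
    intro j _
    have h4 : |(z - y) j| ≤ 4 := by
      have h5 : ‖(z - y) j‖ ≤ ‖z - y‖ := norm_le_pi_norm (z - y) j
      have h6 : ‖z - y‖ ≤ 4 := by
        have h7 := norm_sub_le z y
        rw [mem_ball_zero_iff] at hy hz
        linarith
      exact h5.trans h6
    rw [← sq_abs]
    nlinarith [abs_nonneg ((z - y) j)]
  refine (Finset.sum_le_sum hb).trans ?_
  rw [Finset.sum_const, Finset.card_univ, Fintype.card_fin]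
  norm_num

theorem lint_smul (G : V → ℝ≥0∞) (hG : Measurable G) {s : ℝ} (hs : s ≠ 0) (y : V) :
    ∫⁻ z, G (y + s • z) = ENNReal.ofReal (|s ^ 3|⁻¹) * ∫⁻ z, G z := by
  have h1 : Measure.map (fun z : V => s • z) volume = ENNReal.ofReal |(s ^ 3)⁻¹| • volume := by
    have := Measure.map_addHaar_smul (volume : Measure V) hs
    simpa using this
  have h2 : ∫⁻ z, G (y + s • z) = ∫⁻ z, G (y + z) ∂(Measure.map (fun z : V => s • z) volume) := by
    exact (lintegral_map (hG.comp (measurable_const_add y)) (measurable_const_smul s)).symm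
  rw [h2, h1, lintegral_smul_measure, lintegral_add_left_eq_self, abs_inv, smul_eq_mul]

theorem vol_B : volume (ball (0 : V) 2) = 64 := by
  rw [Real.volume_pi_ball _ (by norm_num)]
  norm_num

theorem one_side (G : V → ℝ≥0∞) (hG : Measurable G) {a b : ℝ} (ha : 1 / 2 ≤ a) :
    ∫⁻ y in ball (0 : V) 2, ∫⁻ z in ball (0 : V) 2, G (b • y + a • z) ≤ 512 * ∫⁻ z, G z := by
  have h1 : ∀ y : V, ∫⁻ z in ball (0 : V) 2, G (b • y + a • z) ≤ 8 * ∫⁻ z, G z := by
    intro y
    refine (setLIntegral_le_lintegral _ _).trans ?_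
    rw [lint_smul G hG (by linarith : a ≠ 0)]
    refine mul_le_mul_left ?_ _
    have h2 : |a ^ 3|⁻¹ ≤ 8 := by
      have ha0 : 0 < a := by linarith
      rw [abs_of_pos (by positivity)]
      have h3 : (1 / 8 : ℝ) ≤ a ^ 3 := by
        have := pow_le_pow_left₀ (by norm_num) ha 3
        norm_num at this ⊢
        exact this
      calc (a ^ 3)⁻¹ ≤ (1 / 8 : ℝ)⁻¹ := inv_anti₀ (by norm_num) h3
        _ = 8 := by norm_num
    calc ENNReal.ofReal |a ^ 3|⁻¹ ≤ ENNReal.ofReal 8 := ENNReal.ofReal_le_ofReal h2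
      _ = 8 := by simp
  calc ∫⁻ y in ball (0 : V) 2, ∫⁻ z in ball (0 : V) 2, G (b • y + a • z)
      ≤ ∫⁻ y in ball (0 : V) 2, 8 * ∫⁻ z, G z := lintegral_mono fun y => h1 y
    _ = 512 * ∫⁻ z, G z := by
      rw [lintegral_const, Measure.restrict_apply_univ, vol_B, mul_right_comm]
      norm_num

theorem both_sides (G : V → ℝ≥0∞) (hG : Measurable G) (s : ℝ) :
    ∫⁻ z in ball (0 : V) 2, ∫⁻ y in ball (0 : V) 2, G (y + s • (z - y)) ≤ 512 * ∫⁻ z, G z := by
  have e : ∀ y z : V, y + s • (z - y) = (1 - s) • y + s • z := by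
    intro y z
    rw [smul_sub, sub_smul, one_smul]
    abel
  simp_rw [e]
  rcases le_total (1 / 2) s with hs | hs
  · rw [lintegral_lintegral_swap]
    · exact one_side G hG hs
    · refine (hG.comp ?_).aemeasurable
      fun_prop
  · have e2 : ∀ y z : V, (1 - s) • y + s • z = s • z + (1 - s) • y := fun y z => add_comm _ _
    simp_rw [e2]
    exact one_side G hG (by linarith)

theorem key {f : V → ℝ} (hf : ContDiff ℝ ∞ f) :
    ∫⁻ z in ball (0 : V) 2, ∫⁻ y in ball (0 : V) 2, ENNReal.ofReal ((f z - f y) ^ 2)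
      ≤ 24576 * ∫⁻ x in ball (0 : V) 2, ENNReal.ofReal (gg f x) := by
  set G : V → ℝ≥0∞ := (ball (0 : V) 2).indicator (fun x => ENNReal.ofReal (gg f x)) with hGdef
  have hG : Measurable G :=
    ((gg_cont hf).measurable.ennreal_ofReal).indicator measurableSet_ball
  have hGi : ∫⁻ z, G z = ∫⁻ x in ball (0 : V) 2, ENNReal.ofReal (gg f x) :=
    lintegral_indicator measurableSet_ball _
  have hp : ∀ z ∈ ball (0 : V) 2, ∀ y ∈ ball (0 : V) 2, ENNReal.ofReal ((f z - f y) ^ 2)
      ≤ 48 * ∫⁻ s in Ioc (0 : ℝ) 1, G (y + s • (z - y)) := by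
    intro z hz y hy
    refine (ENNReal.ofReal_le_ofReal (seg hf hy hz)).trans ?_
    rw [ENNReal.ofReal_mul (by norm_num)]
    have h48 : ENNReal.ofReal 48 = 48 := by simp
    rw [h48]
    refine mul_le_mul_right ?_ _
    have hcl : Continuous (fun s : ℝ => y + s • (z - y)) := by fun_prop
    have hii : IntegrableOn (fun s : ℝ => gg f (y + s • (z - y))) (Ioc 0 1) :=
      (((gg_cont hf).comp hcl).intervalIntegrable (μ := volume) 0 1).1
    rw [intervalIntegral.integral_of_le (by norm_num),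
      ofReal_integral_eq_lintegral_ofReal hii
        (Filter.Eventually.of_forall fun s => gg_nonneg _ _)]
    refine setLIntegral_mono' measurableSet_Ioc fun s hs => ?_
    have hmem : y + s • (z - y) ∈ ball (0 : V) 2 :=
      (convex_ball (0 : V) 2).add_smul_sub_mem hy hz ⟨hs.1.le, hs.2⟩
    rw [hGdef, indicator_of_mem hmem]
  have hm : Measurable (fun p : (V × ℝ) × V => G (p.2 + p.1.2 • (p.1.1 - p.2))) := by
    refine hG.comp ?_
    fun_prop
  have h1 : ∫⁻ z in ball (0 : V) 2, ∫⁻ y in ball (0 : V) 2, ENNReal.ofReal ((f z - f y) ^ 2)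
      ≤ ∫⁻ z in ball (0 : V) 2, ∫⁻ y in ball (0 : V) 2,
        48 * ∫⁻ s in Ioc (0 : ℝ) 1, G (y + s • (z - y)) := by
    refine setLIntegral_mono' measurableSet_ball fun z hz => ?_
    exact setLIntegral_mono' measurableSet_ball fun y hy => hp z hz y hy
  refine h1.trans ?_
  have h2 : ∫⁻ z in ball (0 : V) 2, ∫⁻ y in ball (0 : V) 2,
        48 * ∫⁻ s in Ioc (0 : ℝ) 1, G (y + s • (z - y))
      = 48 * ∫⁻ s in Ioc (0 : ℝ) 1, ∫⁻ z in ball (0 : V) 2, ∫⁻ y in ball (0 : V) 2,
        G (y + s • (z - y)) := by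
    have e1 : ∀ z : V, ∫⁻ y in ball (0 : V) 2, 48 * ∫⁻ s in Ioc (0 : ℝ) 1, G (y + s • (z - y))
        = 48 * ∫⁻ s in Ioc (0 : ℝ) 1, ∫⁻ y in ball (0 : V) 2, G (y + s • (z - y)) := by
      intro z
      rw [lintegral_const_mul' _ _ (by norm_num)]
      congr 1
      rw [lintegral_lintegral_swap]
      refine (hG.comp ?_).aemeasurable
      fun_prop
    simp_rw [e1]
    rw [lintegral_const_mul' _ _ (by norm_num)]
    congr 1
    rw [lintegral_lintegral_swap]
    exact (hm.lintegral_prod_right').aemeasurable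
  rw [h2]
  have h3 : ∫⁻ s in Ioc (0 : ℝ) 1, ∫⁻ z in ball (0 : V) 2, ∫⁻ y in ball (0 : V) 2,
        G (y + s • (z - y)) ≤ 512 * ∫⁻ z, G z := by
    refine (lintegral_mono fun s => both_sides G hG s).trans ?_
    rw [lintegral_const, Measure.restrict_apply_univ, Real.volume_Ioc]
    simp
  calc 48 * ∫⁻ s in Ioc (0 : ℝ) 1, ∫⁻ z in ball (0 : V) 2, ∫⁻ y in ball (0 : V) 2,
        G (y + s • (z - y)) ≤ 48 * (512 * ∫⁻ z, G z) := mul_le_mul_right h3 _
    _ = 24576 * ∫⁻ x in ball (0 : V) 2, ENNReal.ofReal (gg f x) := by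
      rw [hGi, ← mul_assoc]
      norm_num

/-- the scalar inequality -/
theorem poinc_scalar : ∃ C : ℝ, 0 < C ∧ ∀ f : V → ℝ, ContDiff ℝ ∞ f →
    (∫ z, th z * f z = 0) → ∫ z in ball (0 : V) 2, f z ^ 2 ≤ C * ∫ z in ball (0 : V) 2, gg f z := by
  obtain ⟨C, hC0, hC⟩ := th_bdd
  refine ⟨C * 24576, by positivity, fun f hf hmean => ?_⟩
  have hfc := hf.continuous
  -- pointwise
  have h1 : ∀ z, f z ^ 2 ≤ C * ∫ y in ball (0 : V) 2, (f z - f y) ^ 2 := by
    intro z
    have hcc : Continuous (fun y => (f z - f y) ^ 2) := (continuous_const.sub hfc).pow 2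
    refine le_trans ?_ (th_int_le hC hcc (fun y => sq_nonneg _) (by norm_num))
    have e : ∀ y, th y * (f z - f y) ^ 2
        = f z ^ 2 * th y - 2 * f z * (th y * f y) + th y * f y ^ 2 := fun y => by ring
    simp_rw [e]
    have i1 : Integrable (fun y => f z ^ 2 * th y) := by
      have := th_mul_int (f := fun _ => f z ^ 2) continuous_const
      simpa [mul_comm] using this
    have i2 : Integrable (fun y => 2 * f z * (th y * f y)) := (th_mul_int hfc).const_mul _
    have i3 : Integrable (fun y => th y * f y ^ 2) := th_mul_int (hfc.pow 2)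
    have i12 : Integrable (fun y => f z ^ 2 * th y - 2 * f z * (th y * f y)) := i1.sub i2
    rw [integral_add i12 i3, integral_sub i1 i2, integral_const_mul, integral_const_mul,
      hmean, th_int]
    have h4 : 0 ≤ ∫ y, th y * f y ^ 2 :=
      integral_nonneg fun y => mul_nonneg (th_nonneg y) (sq_nonneg _)
    linarith
  have hB : 0 ≤ ∫ z in ball (0 : V) 2, gg f z :=
    setIntegral_nonneg measurableSet_ball fun z _ => gg_nonneg f z
  have hi2 : IntegrableOn (fun z => f z ^ 2) (ball (0 : V) 2) := intB (hfc.pow 2) _ _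
  rw [← ENNReal.ofReal_le_ofReal_iff (by positivity),
    ofReal_integral_eq_lintegral_ofReal hi2
      (Filter.Eventually.of_forall fun s => sq_nonneg _),
    ENNReal.ofReal_mul (by positivity),
    ofReal_integral_eq_lintegral_ofReal (intB (gg_cont hf) _ _)
      (Filter.Eventually.of_forall fun s => gg_nonneg _ _)]
  calc ∫⁻ z in ball (0 : V) 2, ENNReal.ofReal (f z ^ 2)
      ≤ ∫⁻ z in ball (0 : V) 2, ENNReal.ofReal C *
          ∫⁻ y in ball (0 : V) 2, ENNReal.ofReal ((f z - f y) ^ 2) := by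
        refine lintegral_mono fun z => ?_
        beta_reduce
        have hi3 : IntegrableOn (fun y => (f z - f y) ^ 2) (ball (0 : V) 2) :=
          intB ((continuous_const.sub hfc).pow 2) _ _
        rw [← ofReal_integral_eq_lintegral_ofReal hi3
          (Filter.Eventually.of_forall fun s => sq_nonneg _), ← ENNReal.ofReal_mul hC0.le]
        exact ENNReal.ofReal_le_ofReal (h1 z)
    _ = ENNReal.ofReal C * ∫⁻ z in ball (0 : V) 2,
          ∫⁻ y in ball (0 : V) 2, ENNReal.ofReal ((f z - f y) ^ 2) :=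
        lintegral_const_mul' _ _ ENNReal.ofReal_ne_top
    _ ≤ ENNReal.ofReal C * (24576 * ∫⁻ x in ball (0 : V) 2, ENNReal.ofReal (gg f x)) :=
        mul_le_mul_right (key hf) _
    _ = ENNReal.ofReal (C * 24576) * ∫⁻ x in ball (0 : V) 2, ENNReal.ofReal (gg f x) := by
        rw [ENNReal.ofReal_mul hC0.le, ← mul_assoc]
        simp

theorem t_POINC : S_POINC := by
  obtain ⟨C, hC0, hC⟩ := poinc_scalar
  refine ⟨C, hC0, fun v hv hmean => ?_⟩
  unfold A2 B2 nsq gsq
  have hvi := smooth_comp hv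
  have j1 : ∀ i : Fin 3, IntegrableOn (fun z => v z i ^ 2) (ball (0 : V) 2) :=
    fun i => intB ((hvi i).continuous.pow 2) _ _
  have j2 : ∀ i : Fin 3, IntegrableOn (fun z => ∑ j, pd j (fun y => v y i) z ^ 2)
      (ball (0 : V) 2) := fun i => intB (gg_cont (hvi i)) _ _
  rw [integral_finsetSum _ fun i _ => j1 i, integral_finsetSum _ fun i _ => j2 i, Finset.mul_sum]
  exact Finset.sum_le_sum fun i _ => hC _ (hvi i) (hmean i)

end Pool.Agent.W12.MD
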