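import Pool.Agent.W12.MD.Base
import Pool.Agent.H459R3.NS.Ibp

/-!
MD-RIESZ0: the local potential at unit scale by Fourier series (helper12).
-/

open MeasureTheory Set Metric Filter Topology
open scoped ContDiff

namespace Pool.Agent.W12.MD.R0

open H459R3.NS W221.NS Pool.Agent.W12.MD

/-! ### Periodisation -/

/-- the nearest lattice point -/
noncomputable def rnd (x : V) : V := fun i => (round (x i) : ℝ)

/-- the periodisation of a function supported near zero -/
noncomputable def prd (f : V → ℝ) (x : V) : ℝ := f (x - rnd x)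

theorem prd_per (f : V → ℝ) : Per (prd f) := by
  intro i x
  unfold prd
  congr 1
  funext j
  simp only [rnd, Pi.sub_apply, Pi.add_apply, Pi.single_apply]
  by_cases h : j = i
  · rw [if_pos h, round_add_one]
    push_cast
    ring
  · rw [if_neg h, add_zero]

theorem round_eq_of {t : ℝ} {m : ℤ} (h : |t - m| < 1 / 2) : round t = m := by
  have h1 : round (t - m) = 0 := by
    rw [round_eq_zero_iff]
    rw [abs_lt] at h
    exact ⟨by linarith [h.1], by linarith [h.2]⟩
  rw [round_sub_intCast] at h1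
  linarith

variable {f : V → ℝ}

theorem prd_eq (h0 : ∀ z ∉ ball (0 : V) (1 / 4), f z = 0) {x : V} (hx : ∀ i, |x i| ≤ 1 / 2) :
    prd f x = f x := by
  unfold prd
  by_cases hr : ∀ i, round (x i) = 0
  · congr 1
    funext i
    simp [rnd, hr i]
  · push Not at hr
    obtain ⟨i, hi⟩ := hr
    have h1 : f x = 0 := by
      refine h0 x fun hb => hi ?_
      rw [mem_ball_zero_iff] at hb
      have h2 : |x i| < 1 / 4 := (norm_le_pi_norm x i).trans_lt hb
      refine round_eq_of (m := 0) ?_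
      push_cast
      rw [sub_zero]
      linarith
    rw [h1]
    refine h0 _ fun hb => ?_
    rw [mem_ball_zero_iff] at hb
    have h2 : |(x - rnd x) i| < 1 / 4 := (norm_le_pi_norm (x - rnd x) i).trans_lt hb
    simp only [rnd, Pi.sub_apply] at h2
    have h3 : (1 : ℝ) ≤ |(round (x i) : ℝ)| := by
      rw [← Int.cast_abs]
      exact_mod_cast Int.one_le_abs hi
    have h4 := abs_sub_abs_le_abs_sub (round (x i) : ℝ) (x i)
    rw [abs_sub_comm] at h4
    linarith [hx i]

theorem prd_smooth (hf : ContDiff ℝ ∞ f) (h0 : ∀ z ∉ ball (0 : V) (1 / 4), f z = 0) :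
    ContDiff ℝ ∞ (prd f) := by
  rw [contDiff_iff_contDiffAt]
  intro x0
  by_cases h : ∀ i, |x0 i - round (x0 i)| ≤ 1 / 4
  · have h1 : prd f =ᶠ[𝓝 x0] fun x => f (x - rnd x0) := by
      filter_upwards [ball_mem_nhds x0 (by norm_num : (0 : ℝ) < 1 / 4)] with x hx
      unfold prd
      congr 2
      funext i
      simp only [rnd]
      congr 1
      refine round_eq_of ?_
      have h2 : |x i - x0 i| < 1 / 4 := by
        have := (norm_le_pi_norm (x - x0) i).trans_lt (by rwa [← dist_eq_norm])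
        exact this
      have h3 := abs_add_le (x i - x0 i) (x0 i - round (x0 i))
      rw [show x i - x0 i + (x0 i - round (x0 i)) = x i - round (x0 i) by ring] at h3
      linarith [h i]
    refine ContDiffAt.congr_of_eventuallyEq ?_ h1
    exact (hf.comp (contDiff_id.sub contDiff_const)).contDiffAt
  · push Not at h
    obtain ⟨i, hi⟩ := h
    have h1 : prd f =ᶠ[𝓝 x0] fun _ => 0 := by
      filter_upwards [ball_mem_nhds x0 (by linarith : (0 : ℝ) < |x0 i - round (x0 i)| - 1 / 4)]
        with x hx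
      unfold prd
      refine h0 _ fun hb => ?_
      rw [mem_ball_zero_iff] at hb
      have h2 : |(x - rnd x) i| < 1 / 4 := (norm_le_pi_norm (x - rnd x) i).trans_lt hb
      simp only [rnd, Pi.sub_apply] at h2
      have h3 : |x i - x0 i| < |x0 i - round (x0 i)| - 1 / 4 := by
        have := (norm_le_pi_norm (x - x0) i).trans_lt (by rwa [← dist_eq_norm])
        exact this
      have h4 := round_le (x0 i) (round (x i))
      have h5 := abs_add_le (x0 i - x i) (x i - round (x i))
      rw [show x0 i - x i + (x i - round (x i)) = x0 i - round (x i) by ring,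
        abs_sub_comm (x0 i) (x i)] at h5
      linarith
    exact (contDiffAt_const (c := (0 : ℝ))).congr_of_eventuallyEq h1

theorem prd_sp (hf : ContDiff ℝ ∞ f) (h0 : ∀ z ∉ ball (0 : V) (1 / 4), f z = 0) :
    SP (prd f) := ⟨prd_smooth hf h0, prd_per f⟩

/-! ### Integrals over the shifted cell -/

/-- the shifted cell -/
def cel : Set V := {x : V | ∀ i, x i ∈ Ioc ((fun _ => -1 / 2 : V) i) ((fun _ => -1 / 2 : V) i + 1)}

theorem int_cel {g : V → ℝ} (hg : Per g) : ∫ x in cube, g x = ∫ x in cel, g x := by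
  set L : UnitAddTorus (Fin 3) → ℝ := fun t => g (Function.surjInv cov_surj t) with hL
  have hLc : ∀ x, L (cov x) = g x := fun x =>
    hg.eq_of_cov (Function.surjInv_eq cov_surj (cov x))
  have h1 := integral_torus L
  have h2 := UnitAddTorus.integral_preimage L (fun _ => -1 / 2)
  rw [h1] at h2
  have e1 : ∫ x in cube, g x = ∫ x in cube, L (cov x) := by simp_rw [hLc]
  have e2 : ∫ x in cel, g x = ∫ x in cel, L (cov x) := by simp_rw [hLc]
  rw [e1, e2]
  exact h2

theorem cel_abs {x : V} (hx : x ∈ cel) (i : Fin 3) : |x i| ≤ 1 / 2 := by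
  have := hx i
  rw [mem_Ioc] at this
  rw [abs_le]
  constructor <;> linarith [this.1, this.2]

theorem ball_cel : ball (0 : V) (1 / 2) ⊆ cel := by
  intro x hx i
  rw [mem_ball_zero_iff] at hx
  have h2 : |x i| < 1 / 2 := (norm_le_pi_norm x i).trans_lt hx
  rw [abs_lt] at h2
  constructor
  · linarith [h2.1]
  · linarith [h2.2]

theorem cel_meas : MeasurableSet cel := MeasurableSet.univ_pi' fun _ => measurableSet_Ioc

theorem cel_int {g : V → ℝ} (hg : Continuous g) : IntegrableOn g cel := by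
  refine (hg.continuousOn.integrableOn_compact (isCompact_closedBall (0 : V) (1 / 2))).mono_set ?_
  intro x hx
  rw [mem_closedBall_zero_iff, pi_norm_le_iff_of_nonneg (by norm_num)]
  exact fun i => cel_abs hx i

theorem int_prd_sq (h0 : ∀ z ∉ ball (0 : V) (1 / 4), f z = 0) :
    ∫ x in cube, prd f x ^ 2 = ∫ x in ball (0 : V) (1 / 4), f x ^ 2 := by
  have hp : Per (fun x => prd f x ^ 2) := fun i x => by
    beta_reduce
    rw [prd_per f i x]
  rw [int_cel hp]
  have e : ∫ x in cel, prd f x ^ 2 = ∫ x in cel, f x ^ 2 :=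
    setIntegral_congr_fun cel_meas fun x hx => by
      rw [prd_eq h0 (cel_abs hx)]
  rw [e]
  refine setIntegral_eq_of_subset_of_forall_sdiff_eq_zero cel_meas
    ((ball_subset_ball (by norm_num)).trans ball_cel) fun x hx => ?_
  rw [h0 x hx.2]
  norm_num

/-! ### Smoothness of Fourier series -/

theorem fd_sum {E : Type*} [NormedAddCommGroup E] [NormedSpace ℝ E] (f : V → E) (x v : V) :
    fderiv ℝ f x v = ∑ j, v j • pd j f x := by
  conv_lhs => rw [← Finset.univ_sum_single v]
  rw [map_sum]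
  refine Finset.sum_congr rfl fun j _ => ?_
  have : (Pi.single j (v j) : V) = v j • Pi.single j 1 := by
    rw [← Pi.single_smul]; simp
  rw [this, map_smul]
  rfl

theorem norm_fd_ee (k : K3) (x : V) : ‖fderiv ℝ (ee k) x‖ ≤ 6 * Real.pi * N k := by
  refine ContinuousLinearMap.opNorm_le_bound _ (by positivity) fun v => ?_
  rw [fd_sum]
  refine (norm_sum_le _ _).trans ?_
  have h1 : ∀ j ∈ (Finset.univ : Finset (Fin 3)), ‖v j • pd j (ee k) x‖
      ≤ 2 * Real.pi * N k * ‖v‖ := by
    intro j _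
    rw [norm_smul, pd_ee, norm_mul, norm_ee, mul_one, norm_mul]
    have h2 : ‖(2 * Real.pi * Complex.I : ℂ)‖ = 2 * Real.pi := by
      simp [abs_of_pos Real.pi_pos]
    rw [h2]
    have h3 := abs_le_N k j
    have h4 : ‖v j‖ ≤ ‖v‖ := norm_le_pi_norm v j
    calc ‖v j‖ * (2 * Real.pi * ‖(k j : ℂ)‖) ≤ ‖v‖ * (2 * Real.pi * N k) := by gcongr
      _ = 2 * Real.pi * N k * ‖v‖ := by ring
  refine (Finset.sum_le_sum h1).trans (le_of_eq ?_)
  rw [Finset.sum_const, Finset.card_univ, Fintype.card_fin, nsmul_eq_mul]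
  push_cast
  ring

theorem hasFD_S {a : K3 → ℂ} (ha : Rap a) (x : V) :
    HasFDerivAt (S a) (∑' k, a k • fderiv ℝ (ee k) x) x := by
  have hu : Summable fun k => 6 * Real.pi * ((N k : ℝ) ^ 1 * ‖a k‖) := (ha 1).mul_left _
  refine hasFDerivAt_tsum (𝕜 := ℝ) (f := fun k y => a k * ee k y)
    (f' := fun k y => a k • fderiv ℝ (ee k) y) (x₀ := x) hu (fun k y => ?_) (fun k y => ?_)
    (summable_term ha.summable x) x
  · have h := ((ee_contDiff k (n := 1)).differentiable one_ne_zero y).hasFDerivAt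
    exact h.const_mul (a k)
  · rw [norm_smul, pow_one]
    calc ‖a k‖ * ‖fderiv ℝ (ee k) y‖ ≤ ‖a k‖ * (6 * Real.pi * N k) :=
          mul_le_mul_of_nonneg_left (norm_fd_ee k y) (norm_nonneg _)
      _ = 6 * Real.pi * (N k * ‖a k‖) := by ring

theorem pd_S {a : K3 → ℂ} (ha : Rap a) (j : Fin 3) : pd j (S a) = S (D j a) := by
  funext x
  have hu : Summable fun k => a k • fderiv ℝ (ee k) x := by
    refine Summable.of_norm_bounded ((ha 1).mul_left (6 * Real.pi)) fun k => ?_
    rw [norm_smul, pow_one]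
    calc ‖a k‖ * ‖fderiv ℝ (ee k) x‖ ≤ ‖a k‖ * (6 * Real.pi * N k) :=
          mul_le_mul_of_nonneg_left (norm_fd_ee k x) (norm_nonneg _)
      _ = 6 * Real.pi * (N k * ‖a k‖) := by ring
  unfold pd
  rw [(hasFD_S ha x).fderiv]
  have h1 := (ContinuousLinearMap.apply ℝ ℂ (Pi.single j (1 : ℝ) : V)).map_tsum hu
  simp only [ContinuousLinearMap.apply_apply] at h1
  rw [h1]
  unfold S
  refine tsum_congr fun k => ?_
  have h2 := pd_ee k j x
  unfold pd at h2
  rw [smul_apply, h2, smul_eq_mul]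
  unfold D
  ring

theorem S_smooth (n : ℕ) : ∀ a : K3 → ℂ, Rap a → ContDiff ℝ n (S a) := by
  induction n with
  | zero =>
    intro a ha
    rw [Nat.cast_zero, contDiff_zero]
    exact S_continuous ha.summable
  | succ n ih =>
    intro a ha
    rw [Nat.cast_succ, contDiff_succ_iff_fderiv]
    refine ⟨fun x => (hasFD_S ha x).differentiableAt, by simp, ?_⟩
    have e : fderiv ℝ (S a) = fun x => ∑ j : Fin 3,
        (ContinuousLinearMap.proj (R := ℝ) (φ := fun _ : Fin 3 => ℝ) j).smulRight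
          (S (D j a) x) := by
      funext x
      ext v
      rw [fd_sum, sum_apply]
      refine Finset.sum_congr rfl fun j _ => ?_
      rw [pd_S ha j]
      simp
    rw [e]
    refine ContDiff.sum fun j _ => ?_
    exact contDiff_const.smulRight (ih _ (ha.D j))

theorem S_smooth' {a : K3 → ℂ} (ha : Rap a) : ContDiff ℝ ∞ (S a) :=
  contDiff_infty.2 fun n => S_smooth n a ha

theorem S_per (a : K3 → ℂ) : Per (S a) := by
  intro i x
  unfold S
  refine tsum_congr fun k => ?_
  rw [ee_per k i x]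

theorem S_sum {ι : Type*} (s : Finset ι) {b : ι → K3 → ℂ} (hb : ∀ i ∈ s, Summable (b i)) (x : V) :
    S (fun k => ∑ i ∈ s, b i k) x = ∑ i ∈ s, S (b i) x := by
  unfold S
  rw [← Summable.tsum_finsetSum fun i hi => summable_term (hb i hi) x]
  refine tsum_congr fun k => ?_
  rw [Finset.sum_mul]

theorem S_neg (b : K3 → ℂ) (x : V) : S (fun k => -b k) x = -S b x := by
  unfold S
  rw [← tsum_neg]
  refine tsum_congr fun k => ?_
  ring

/-! ### The potential -/

/-- `|k|²` -/
noncomputable def kk (k : K3) : ℝ := ∑ l, (k l : ℝ) ^ 2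

theorem kk_pos {k : K3} (hk : k ≠ 0) : 0 < kk k := by
  have : ∃ i, k i ≠ 0 := by
    by_contra h
    push Not at h
    exact hk (funext h)
  obtain ⟨i, hi⟩ := this
  refine Finset.sum_pos' (fun _ _ => sq_nonneg _) ⟨i, Finset.mem_univ i, ?_⟩
  have : (k i : ℝ) ≠ 0 := by exact_mod_cast hi
  positivity

/-- the Fourier coefficients of the potential -/
noncomputable def pc (a : Fin 3 → Fin 3 → K3 → ℂ) (k : K3) : ℂ :=
  -∑ i, ∑ j, ((k i : ℂ) * (k j : ℂ) / (kk k : ℂ)) * a i j k

theorem mult_le (k : K3) (i j : Fin 3) : ‖(k i : ℂ) * (k j : ℂ) / (kk k : ℂ)‖ ≤ 1 := by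
  have h0 : 0 ≤ kk k := Finset.sum_nonneg fun _ _ => sq_nonneg _
  rw [norm_div, norm_mul, Complex.norm_intCast, Complex.norm_intCast, Complex.norm_real,
    Real.norm_of_nonneg h0]
  refine div_le_one_of_le₀ ?_ h0
  have h1 : ∀ l : Fin 3, (k l : ℝ) ^ 2 ≤ kk k := fun l =>
    Finset.single_le_sum (f := fun l => (k l : ℝ) ^ 2) (fun _ _ => sq_nonneg _)
      (Finset.mem_univ l)
  have h2 := h1 i
  have h3 := h1 j
  rw [← sq_abs] at h2 h3
  nlinarith [sq_nonneg (|(k i : ℝ)| - |(k j : ℝ)|)]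

theorem norm_pc_le (a : Fin 3 → Fin 3 → K3 → ℂ) (k : K3) : ‖pc a k‖ ≤ ∑ i, ∑ j, ‖a i j k‖ := by
  unfold pc
  rw [norm_neg]
  refine (norm_sum_le _ _).trans (Finset.sum_le_sum fun i _ => ?_)
  refine (norm_sum_le _ _).trans (Finset.sum_le_sum fun j _ => ?_)
  rw [norm_mul]
  exact mul_le_of_le_one_left (norm_nonneg _) (mult_le k i j)

theorem rap_pc {a : Fin 3 → Fin 3 → K3 → ℂ} (ha : ∀ i j, Rap (a i j)) : Rap (pc a) := by
  intro n
  have h1 : Summable fun k => ∑ i, ∑ j, (N k : ℝ) ^ n * ‖a i j k‖ :=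
    summable_sum fun i _ => summable_sum fun j _ => ha i j n
  refine Summable.of_nonneg_of_le (fun k => by positivity) (fun k => ?_) h1
  simp_rw [← Finset.mul_sum]
  exact mul_le_mul_of_nonneg_left (norm_pc_le a k) (by positivity)

theorem norm_pc_sq_le (a : Fin 3 → Fin 3 → K3 → ℂ) (k : K3) :
    ‖pc a k‖ ^ 2 ≤ 9 * ∑ i, ∑ j, ‖a i j k‖ ^ 2 := by
  refine (pow_le_pow_left₀ (norm_nonneg _) (norm_pc_le a k) 2).trans ?_
  have h1 : (∑ i, ∑ j, ‖a i j k‖) ^ 2 ≤ 3 * ∑ i, (∑ j, ‖a i j k‖) ^ 2 := by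
    have := sq_sum_le_card_mul_sum_sq (s := (Finset.univ : Finset (Fin 3)))
      (f := fun i => ∑ j, ‖a i j k‖)
    simpa using this
  have h2 : ∀ i, (∑ j, ‖a i j k‖) ^ 2 ≤ 3 * ∑ j, ‖a i j k‖ ^ 2 := by
    intro i
    have := sq_sum_le_card_mul_sum_sq (s := (Finset.univ : Finset (Fin 3)))
      (f := fun j => ‖a i j k‖)
    simpa using this
  calc _ ≤ 3 * ∑ i, (∑ j, ‖a i j k‖) ^ 2 := h1
    _ ≤ 3 * ∑ i, 3 * ∑ j, ‖a i j k‖ ^ 2 := by
      refine mul_le_mul_of_nonneg_left (Finset.sum_le_sum fun i _ => h2 i) (by norm_num)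
    _ = 9 * ∑ i, ∑ j, ‖a i j k‖ ^ 2 := by rw [← Finset.mul_sum]; ring

theorem pc_eq (a : Fin 3 → Fin 3 → K3 → ℂ) (k : K3) :
    -∑ j, D j (D j (pc a)) k = ∑ i, ∑ j, D i (D j (a i j)) k := by
  have e1 : ∑ j, D j (D j (pc a)) k
      = (2 * Real.pi * Complex.I) ^ 2 * ((kk k : ℂ) * pc a k) := by
    unfold kk
    push_cast
    rw [Finset.sum_mul, Finset.mul_sum]
    refine Finset.sum_congr rfl fun j _ => ?_
    unfold D
    ring
  have e2 : ∑ i, ∑ j, D i (D j (a i j)) k
      = (2 * Real.pi * Complex.I) ^ 2 * ∑ i, ∑ j, (k i : ℂ) * (k j : ℂ) * a i j k := by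
    rw [Finset.mul_sum]
    refine Finset.sum_congr rfl fun i _ => ?_
    rw [Finset.mul_sum]
    refine Finset.sum_congr rfl fun j _ => ?_
    unfold D
    ring
  have e3 : (kk k : ℂ) * pc a k = -∑ i, ∑ j, (k i : ℂ) * (k j : ℂ) * a i j k := by
    unfold pc
    rw [mul_neg, Finset.mul_sum]
    congr 1
    refine Finset.sum_congr rfl fun i _ => ?_
    rw [Finset.mul_sum]
    refine Finset.sum_congr rfl fun j _ => ?_
    by_cases hk : k = 0
    · subst hk
      simp
    · have : (kk k : ℂ) ≠ 0 := by exact_mod_cast (kk_pos hk).ne'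
      field_simp
  rw [e1, e2, e3]
  ring

theorem pd_re {g : V → ℂ} (hg : ContDiff ℝ ∞ g) (j : Fin 3) :
    pd j (fun y => (g y).re) = fun x => (pd j g x).re := by
  funext x
  have h : HasFDerivAt (fun y => (g y).re) (Complex.reCLM.comp (fderiv ℝ g x)) x :=
    Complex.reCLM.hasFDerivAt.comp x ((hg.differentiable (by simp)) x).hasFDerivAt
  unfold pd
  rw [h.fderiv]
  rfl

theorem pd_congr_on {U : Set V} (hU : IsOpen U) {f g : V → ℝ} (h : ∀ x ∈ U, f x = g x)
    (j : Fin 3) : ∀ x ∈ U, pd j f x = pd j g x := by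
  intro x hx
  have : f =ᶠ[𝓝 x] g := by
    filter_upwards [hU.mem_nhds hx] with y hy using h y hy
  unfold pd
  rw [this.fderiv_eq]

theorem t_RIESZ0 : S_RIESZ0 := by
  refine ⟨9, by norm_num, fun f hf h0 => ?_⟩
  have hF : ∀ i j, SP (prd (f i j)) := fun i j => prd_sp (hf i j) (h0 i j)
  set a : Fin 3 → Fin 3 → K3 → ℂ := fun i j => fr (prd (f i j)) with ha
  have har : ∀ i j, Rap (a i j) := fun i j => rap_fr (hF i j)
  have hpr : Rap (pc a) := rap_pc har
  refine ⟨fun x => (S (pc a) x).re, Complex.reCLM.contDiff.comp (S_smooth' hpr), fun x hx => ?_, ?_⟩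
  · -- the equation
    have e1 : lap (fun x => (S (pc a) x).re) x = (∑ j, S (D j (D j (pc a))) x).re := by
      unfold lap
      rw [Complex.re_sum]
      refine Finset.sum_congr rfl fun j _ => ?_
      rw [pd_re (S_smooth' hpr), pd_S hpr, pd_re (S_smooth' (hpr.D j)), pd_S (hpr.D j)]
    have e2 : -(∑ j, S (D j (D j (pc a))) x) = ∑ i, ∑ j, S (D i (D j (a i j))) x := by
      rw [← S_sum _ fun j _ => ((hpr.D j).D j).summable, ← S_neg]
      have e3 : (fun k => -∑ j, D j (D j (pc a)) k) = fun k => ∑ i, ∑ j, D i (D j (a i j)) k :=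
        funext fun k => pc_eq a k
      rw [e3, S_sum _ fun i _ => summable_sum fun j _ => (((har i j).D j).D i).summable]
      refine Finset.sum_congr rfl fun i _ => ?_
      rw [S_sum _ fun j _ => (((har i j).D j).D i).summable]
    rw [e1, ← Complex.neg_re, e2, Complex.re_sum]
    refine Finset.sum_congr rfl fun i _ => ?_
    rw [Complex.re_sum]
    refine Finset.sum_congr rfl fun j _ => ?_
    have e4 : D i (D j (a i j)) = fr (pd i (pd j (prd (f i j)))) := by
      rw [fr_pd ((hF i j).pd j), fr_pd (hF i j)]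
    rw [e4, S_fr (((hF i j).pd j).pd i), Complex.ofReal_re]
    refine pd_congr_on isOpen_ball (pd_congr_on isOpen_ball (fun y hy => ?_) j) i x hx
    exact prd_eq (h0 i j) (cel_abs (ball_cel hy))
  · -- the bound
    have hS : Continuous (fun x => ‖S (pc a) x‖ ^ 2) :=
      (S_continuous hpr.summable).norm.pow 2
    have hR : Continuous (fun x => (S (pc a) x).re ^ 2) :=
      (Complex.continuous_re.comp (S_continuous hpr.summable)).pow 2
    have h1 : ∫ x in ball (0 : V) (1 / 2), (S (pc a) x).re ^ 2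
        ≤ ∫ x in ball (0 : V) (1 / 2), ‖S (pc a) x‖ ^ 2 := by
      refine setIntegral_mono (intB hR _ _) (intB hS _ _) fun x => ?_
      beta_reduce
      rw [← sq_abs]
      exact pow_le_pow_left₀ (abs_nonneg _) (Complex.abs_re_le_norm _) 2
    have h2 : ∫ x in ball (0 : V) (1 / 2), ‖S (pc a) x‖ ^ 2 ≤ ∫ x in cel, ‖S (pc a) x‖ ^ 2 :=
      setIntegral_mono_set (cel_int hS) (Filter.Eventually.of_forall fun _ => by positivity)
        ball_cel.eventuallyLE
    have hp : Per (fun x => ‖S (pc a) x‖ ^ 2) := fun i x => by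
      beta_reduce
      rw [S_per _ i x]
    rw [← int_cel hp, integral_norm_sq hpr.summable, n2_sq] at h2
    refine h1.trans (h2.trans ?_)
    have h3 : ∀ i j, Summable fun k => ‖a i j k‖ ^ 2 := fun i j => summable_sq (har i j).summable
    have h4 : Summable fun k => 9 * ∑ i, ∑ j, ‖a i j k‖ ^ 2 :=
      (summable_sum fun i _ => summable_sum fun j _ => h3 i j).mul_left _
    refine ((summable_sq hpr.summable).tsum_le_tsum (fun k => norm_pc_sq_le a k) h4).trans
      (le_of_eq ?_)
    rw [tsum_mul_left]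
    congr 1
    rw [Summable.tsum_finsetSum fun i _ => summable_sum fun j _ => h3 i j]
    refine Finset.sum_congr rfl fun i _ => ?_
    rw [Summable.tsum_finsetSum fun j _ => h3 i j]
    refine Finset.sum_congr rfl fun j _ => ?_
    rw [← n2_sq, ha, n2_fr (hF i j), int_prd_sq (h0 i j)]

end Pool.Agent.W12.MD.R0
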